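import Pool.Agent.Seat73.CoreS.Smooth

/-!
# The origin does not belong to the `C^0`-core
-/

set_option autoImplicit false

open Real Set Metric Filter Topology InnerProductSpace

namespace Pool.Agent.Seat73.CoreS

variable {m : ℕ}

/-- the essential part of the example -/
noncomputable def WW (a b : ℂ) : ℝ :=
  open Classical in
  if ‖a‖ < 2 ∧ ‖b‖ < 1 then max (uu a) ((‖a‖ ^ 2 + ‖b‖ ^ 2) / 10 - 1 / 2) else 0

theorem WW_P1 {a b : ℂ} (ha : ‖a‖ < 2) (hb : ‖b‖ < 1) :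
    WW a b = max (uu a) ((‖a‖ ^ 2 + ‖b‖ ^ 2) / 10 - 1 / 2) := if_pos ⟨ha, hb⟩

theorem WW_P2 {a : ℂ} (b : ℂ) {k : ℕ} (ha : ‖a - xx k‖ < dd k) : WW a b = 0 := by
  unfold WW
  split_ifs with h
  · rw [uu_zero (XX_of_dd ha)]
    refine max_eq_left ?_
    nlinarith [norm_nonneg a, norm_nonneg b, h.1, h.2]
  · rfl

theorem WW_P3 (a : ℂ) {b : ℂ} (hb : ‖b - 3‖ < 1) : WW a b = 0 := by
  unfold WW
  rw [if_neg]
  rintro ⟨-, h⟩
  have h1 : ‖(3 : ℂ)‖ ≤ ‖b‖ + ‖b - 3‖ := by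
    have := norm_sub_le b (b - 3)
    simpa using this
  have h2 : ‖(3 : ℂ)‖ = 3 := by simp
  linarith

theorem WW_le (a b : ℂ) : WW a b ≤ 3 := by
  unfold WW
  split_ifs with h
  · refine max_le ?_ ?_
    · have := uu_le a
      nlinarith [norm_nonneg a, h.1]
    · nlinarith [norm_nonneg a, norm_nonneg b, h.1, h.2]
  · norm_num

/-- the example -/
noncomputable def phi (z : Cn (m + 2)) : ℝ :=
  WW (z 0) (z 1) + (∑ j : Fin m, ‖z j.succ.succ‖ ^ 2) / 10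

theorem coord_cont (i : Fin (m + 2)) : Continuous fun z : Cn (m + 2) => z i := by fun_prop

theorem WW_cont {z : Cn (m + 2)} (hz : z ∈ Om m) :
    ContinuousAt (fun z : Cn (m + 2) => WW (z 0) (z 1)) z := by
  rcases hz with (hz | hz) | hz
  · have h : (fun z : Cn (m + 2) => WW (z 0) (z 1)) =ᶠ[𝓝 z]
        fun z => max (uu (z 0)) ((‖z 0‖ ^ 2 + ‖z 1‖ ^ 2) / 10 - 1 / 2) := by
      filter_upwards [isOpen_P1.mem_nhds hz] with w hw
      exact WW_P1 hw.1.1 hw.1.2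
    refine ContinuousAt.congr ?_ h.symm
    refine Continuous.continuousAt ?_
    exact (uu_cont.comp (coord_cont 0)).max (by fun_prop)
  · obtain ⟨k, hk⟩ := mem_iUnion.1 hz
    have h : (fun z : Cn (m + 2) => WW (z 0) (z 1)) =ᶠ[𝓝 z] fun _ => 0 := by
      filter_upwards [(isOpen_P2 k).mem_nhds hk] with w hw
      exact WW_P2 _ hw.1
    exact continuousAt_const.congr h.symm
  · have h : (fun z : Cn (m + 2) => WW (z 0) (z 1)) =ᶠ[𝓝 z] fun _ => 0 := by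
      filter_upwards [isOpen_P3.mem_nhds hz] with w hw
      exact WW_P3 _ hw.1
    exact continuousAt_const.congr h.symm

theorem SS_cont : Continuous fun z : Cn (m + 2) => (∑ j : Fin m, ‖z j.succ.succ‖ ^ 2) / 10 := by
  fun_prop

theorem phi_cont {z : Cn (m + 2)} (hz : z ∈ Om m) : ContinuousAt phi z :=
  (WW_cont hz).add SS_cont.continuousAt

theorem LSM.add {f g : ℂ → ℝ} {z : ℂ} (hf : LSM f z) (hg : LSM g z)
    (hfc : ∀ᶠ t in 𝓝 z, ContinuousAt f t) (hgc : ∀ᶠ t in 𝓝 z, ContinuousAt g t) :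
    LSM (fun t => f t + g t) z := by
  obtain ⟨r₀, hr₀, h⟩ := hf
  obtain ⟨r₁, hr₁, h1⟩ := hg
  obtain ⟨ρ, hρ, hball⟩ := Metric.nhds_basis_closedBall.mem_iff.1 (hfc.and hgc)
  refine ⟨min r₀ (min r₁ ρ), by positivity, fun r hr0 hr => ?_⟩
  have h2 : r < r₀ := hr.trans_le (min_le_left _ _)
  have h3 : r < r₁ := hr.trans_le ((min_le_right _ _).trans (min_le_left _ _))
  have h4 : r < ρ := hr.trans_le ((min_le_right _ _).trans (min_le_right _ _))
  rw [circleAverage_fun_add]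
  · exact add_le_add (h r hr0 h2) (h1 r hr0 h3)
  · exact circInt hr0.le fun t ht =>
      (hball (closedBall_subset_closedBall h4.le ht)).1.continuousWithinAt
  · exact circInt hr0.le fun t ht =>
      (hball (closedBall_subset_closedBall h4.le ht)).2.continuousWithinAt

/-- the tangent of `|a + ζ b|²` at `ζ₀` -/
theorem tangent (a b ζ₀ : ℂ) : ∃ H : ℂ → ℝ, HarmonicAt H ζ₀ ∧ H ζ₀ = ‖a + ζ₀ * b‖ ^ 2 ∧
    ∀ ζ, H ζ ≤ ‖a + ζ * b‖ ^ 2 := by
  refine ⟨fun ζ => ((starRingEnd ℂ) (a + ζ₀ * b) * 2 * ((ζ - ζ₀) * b)).re + ‖a + ζ₀ * b‖ ^ 2,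
    ?_, ?_, fun ζ => ?_⟩
  · refine HarmonicAt.add ?_ (harmonicAt_const _)
    exact harm_re (g := fun ζ => (starRingEnd ℂ) (a + ζ₀ * b) * 2 * ((ζ - ζ₀) * b)) (by fun_prop) _
  · simp
  · have h1 := sq_tangent (a + ζ₀ * b) (a + ζ * b)
    have h2 : ((starRingEnd ℂ) (a + ζ₀ * b) * 2 * ((ζ - ζ₀) * b)).re =
        2 * ((starRingEnd ℂ) (a + ζ₀ * b) * (a + ζ * b - (a + ζ₀ * b))).re := by
      have : (starRingEnd ℂ) (a + ζ₀ * b) * 2 * ((ζ - ζ₀) * b) =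
        ((2 : ℝ) : ℂ) * ((starRingEnd ℂ) (a + ζ₀ * b) * (a + ζ * b - (a + ζ₀ * b))) := by
        push_cast; ring
      rw [this, Complex.re_ofReal_mul]
    show ((starRingEnd ℂ) (a + ζ₀ * b) * 2 * ((ζ - ζ₀) * b)).re + _ ≤ _
    rw [h2]
    linarith

theorem WW_lsm {z v : Cn (m + 2)} {ζ₀ : ℂ} (h : z + ζ₀ • v ∈ Om m) :
    LSM (fun ζ => WW (z 0 + ζ * v 0) (z 1 + ζ * v 1)) ζ₀ := by
  have hLc : Continuous fun ζ : ℂ => z + ζ • v := by fun_prop
  have hLt : Tendsto (fun ζ : ℂ => z + ζ • v) (𝓝 ζ₀) (𝓝 (z + ζ₀ • v)) := hLc.continuousAt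
  have hfc : ∀ᶠ ζ in 𝓝 ζ₀, ContinuousAt (fun ζ => WW (z 0 + ζ * v 0) (z 1 + ζ * v 1)) ζ := by
    filter_upwards [hLt.eventually (isOpen_Om.mem_nhds h)] with ζ hζ
    exact (WW_cont hζ).comp (f := fun ζ : ℂ => z + ζ • v) hLc.continuousAt
  rcases h with (h | h) | h
  · have hev : ∀ᶠ ζ in 𝓝 ζ₀, WW (z 0 + ζ * v 0) (z 1 + ζ * v 1) =
        max (uu (z 0 + ζ * v 0)) ((‖z 0 + ζ * v 0‖ ^ 2 + ‖z 1 + ζ * v 1‖ ^ 2) / 10 - 1 / 2) := by
      filter_upwards [hLt.eventually (isOpen_P1.mem_nhds h)] with ζ hζ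
      exact WW_P1 hζ.1.1 hζ.1.2
    have hval := hev.self_of_nhds
    rcases max_choice (uu (z 0 + ζ₀ * v 0))
      ((‖z 0 + ζ₀ * v 0‖ ^ 2 + ‖z 1 + ζ₀ * v 1‖ ^ 2) / 10 - 1 / 2) with hm | hm
    · refine LSM.of_support (g := fun ζ => uu (z 0 + ζ * v 0)) (uu_gsm.lsm univ_mem) ?_ hfc ?_ ?_
      · exact Eventually.of_forall fun ζ => (uu_cont.comp (by fun_prop)).continuousAt
      · filter_upwards [hev] with ζ hζ
        rw [hζ]
        exact le_max_left _ _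
      · show _ = WW (z 0 + ζ₀ * v 0) (z 1 + ζ₀ * v 1)
        rw [hval, hm]
    · obtain ⟨H₀, hH₀, hH₀', hH₀''⟩ := tangent (z 0) (v 0) ζ₀
      obtain ⟨H₁, hH₁, hH₁', hH₁''⟩ := tangent (z 1) (v 1) ζ₀
      refine LSM.of_harmonic (H := fun ζ => (1 / 10 : ℝ) * H₀ ζ + (1 / 10 : ℝ) * H₁ ζ + (-1 / 2))
        ?_ hfc ?_ ?_
      · exact ((hH₀.const_smul (c := (1 / 10 : ℝ))).add (hH₁.const_smul (c := (1 / 10 : ℝ)))).add
          (harmonicAt_const _)
      · filter_upwards [hev] with ζ hζ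
        rw [hζ]
        refine le_trans ?_ (le_max_right _ _)
        linarith [hH₀'' ζ, hH₁'' ζ]
      · show _ = WW (z 0 + ζ₀ * v 0) (z 1 + ζ₀ * v 1)
        rw [hval, hm, hH₀', hH₁']
        ring
  · obtain ⟨k, hk⟩ := mem_iUnion.1 h
    have hev : ∀ᶠ ζ in 𝓝 ζ₀, WW (z 0 + ζ * v 0) (z 1 + ζ * v 1) = 0 := by
      filter_upwards [hLt.eventually ((isOpen_P2 k).mem_nhds hk)] with ζ hζ
      exact WW_P2 _ hζ.1
    refine LSM.of_harmonic (H := fun _ => 0) (harmonicAt_const 0) hfc ?_ hev.self_of_nhds.symm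
    filter_upwards [hev] with ζ hζ
    rw [hζ]
  · have hev : ∀ᶠ ζ in 𝓝 ζ₀, WW (z 0 + ζ * v 0) (z 1 + ζ * v 1) = 0 := by
      filter_upwards [hLt.eventually (isOpen_P3.mem_nhds h)] with ζ hζ
      exact WW_P3 _ hζ.1
    refine LSM.of_harmonic (H := fun _ => 0) (harmonicAt_const 0) hfc ?_ hev.self_of_nhds.symm
    filter_upwards [hev] with ζ hζ
    rw [hζ]

theorem SS_lsm (z v : Cn (m + 2)) (ζ₀ : ℂ) :
    LSM (fun ζ => (∑ j : Fin m, ‖z j.succ.succ + ζ * v j.succ.succ‖ ^ 2) / 10) ζ₀ := by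
  choose H hH hH' hH'' using fun j : Fin m => tangent (z j.succ.succ) (v j.succ.succ) ζ₀
  have hfc : ∀ᶠ ζ in 𝓝 ζ₀, ContinuousAt
      (fun ζ => (∑ j : Fin m, ‖z j.succ.succ + ζ * v j.succ.succ‖ ^ 2) / 10) ζ :=
    Eventually.of_forall fun ζ => (by fun_prop : Continuous fun ζ : ℂ =>
      (∑ j : Fin m, ‖z j.succ.succ + ζ * v j.succ.succ‖ ^ 2) / 10).continuousAt
  refine LSM.of_harmonic (H := fun ζ => (1 / 10 : ℝ) * ∑ j, H j ζ) ?_ hfc ?_ ?_
  · have h1 : ∀ s : Finset (Fin m), HarmonicAt (fun ζ => ∑ j ∈ s, H j ζ) ζ₀ := by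
      intro s
      induction s using Finset.induction_on with
      | empty => simpa using harmonicAt_const (0 : ℝ)
      | insert a s ha ih =>
        simp only [Finset.sum_insert ha]
        exact (hH a).add ih
    exact (h1 Finset.univ).const_smul (c := (1 / 10 : ℝ))
  · refine Eventually.of_forall fun ζ => ?_
    show (1 / 10 : ℝ) * ∑ j, H j ζ ≤ _
    have := Finset.sum_le_sum fun j (_ : j ∈ Finset.univ) => hH'' j ζ
    linarith
  · show (1 / 10 : ℝ) * ∑ j, H j ζ₀ = _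
    rw [Finset.sum_congr rfl fun j _ => hH' j]
    ring

theorem phi_psh : IsPSH (Om m) phi := by
  refine ⟨fun z hz => (phi_cont hz).continuousWithinAt, fun z v hdisc => ?_⟩
  have hLc : Continuous fun ζ : ℂ => z + ζ • v := by fun_prop
  have hform : (fun ζ : ℂ => phi (z + ζ • v)) = fun ζ =>
      WW (z 0 + ζ * v 0) (z 1 + ζ * v 1) +
        (∑ j : Fin m, ‖z j.succ.succ + ζ * v j.succ.succ‖ ^ 2) / 10 := by
    funext ζ
    simp [phi]
  have h := local_to_global (f := fun ζ => phi (z + ζ • v)) ?_ ?_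
  · simpa using h
  · intro ζ hζ
    have h1 : z + ζ • v ∈ Om m := hdisc ζ (by simpa using hζ)
    exact ((phi_cont h1).comp (f := fun ζ : ℂ => z + ζ • v) hLc.continuousAt).continuousWithinAt
  · intro ζ hζ
    have h1 : z + ζ • v ∈ Om m := hdisc ζ (by simpa using (mem_ball.1 hζ).le)
    have hLt : Tendsto (fun ζ : ℂ => z + ζ • v) (𝓝 ζ) (𝓝 (z + ζ • v)) := hLc.continuousAt
    rw [hform]
    refine (WW_lsm h1).add (SS_lsm z v ζ) ?_ ?_
    · filter_upwards [hLt.eventually (isOpen_Om.mem_nhds h1)] with ξ hξ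
      exact (WW_cont hξ).comp (f := fun ζ : ℂ => z + ζ • v) hLc.continuousAt
    · exact Eventually.of_forall fun ζ => (by fun_prop : Continuous fun ζ : ℂ =>
        (∑ j : Fin m, ‖z j.succ.succ + ζ * v j.succ.succ‖ ^ 2) / 10).continuousAt

theorem phi_bdd : BddAbove (phi '' Om m) := by
  refine ⟨3 + (m : ℝ) / 10, ?_⟩
  rintro _ ⟨z, hz, rfl⟩
  have hQ : z ∈ QQ m := by
    rcases hz with (hz | hz) | hz
    · exact hz.2
    · obtain ⟨k, hk⟩ := mem_iUnion.1 hz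
      exact hk.2
    · exact hz.2
  have h1 : ∑ j : Fin m, ‖z j.succ.succ‖ ^ 2 ≤ m := by
    have h2 : ∀ j ∈ (Finset.univ : Finset (Fin m)), ‖z j.succ.succ‖ ^ 2 ≤ 1 := fun j _ => by
      have := hQ j
      nlinarith [norm_nonneg (z j.succ.succ)]
    simpa using Finset.sum_le_card_nsmul _ _ _ h2
  unfold phi
  linarith [WW_le (z 0) (z 1)]

theorem phi_strict : IsStrictlyPSHAt (phi (m := m)) 0 := by
  have hval : ∀ w ∈ ball (0 : Cn (m + 2)) (1 / 2), phi w - 1 / 10 * ‖w‖ ^ 2 = -1 / 2 := by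
    intro w hw
    rw [mem_ball, dist_zero_right] at hw
    have hsq : ‖w‖ ^ 2 = ‖w 0‖ ^ 2 + (‖w 1‖ ^ 2 + ∑ j : Fin m, ‖w j.succ.succ‖ ^ 2) := by
      rw [EuclideanSpace.norm_sq_eq, Fin.sum_univ_succ, Fin.sum_univ_succ]
      rfl
    have h2 : 0 ≤ ∑ j : Fin m, ‖w j.succ.succ‖ ^ 2 := Finset.sum_nonneg fun _ _ => by positivity
    have h3 : ‖w‖ ^ 2 < 1 / 4 := by nlinarith [norm_nonneg w]
    have h0 : ‖w 0‖ ^ 2 < 1 / 4 := by nlinarith [sq_nonneg ‖w 1‖]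
    have h1 : ‖w 1‖ ^ 2 < 1 / 4 := by nlinarith [sq_nonneg ‖w 0‖]
    have h0' : ‖w 0‖ < 1 := by nlinarith [norm_nonneg (w 0)]
    have h1' : ‖w 1‖ < 1 := by nlinarith [norm_nonneg (w 1)]
    unfold phi
    rw [WW_P1 (by linarith) h1', uu_disc h0'.le, max_eq_right (by nlinarith [sq_nonneg ‖w 1‖]), hsq]
    ring
  refine ⟨ball 0 (1 / 2), isOpen_ball, mem_ball_self (by norm_num), 1 / 10, by norm_num, ?_, ?_⟩
  · exact (continuousOn_const (c := (-1 / 2 : ℝ))).congr hval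
  · intro z v hdisc
    have h1 : circleAverage (fun ζ : ℂ => (fun w => phi w - 1 / 10 * ‖w‖ ^ 2) (z + ζ • v)) 0 1 =
        -1 / 2 := circleAverage_const_on_circle fun ζ hζ => hval _ (hdisc ζ (by
          have := mem_sphere_zero_iff_norm.1 hζ
          rw [this]; simp))
    rw [h1]
    have h2 := hdisc 0 (by simp)
    rw [zero_smul, add_zero] at h2
    exact (hval z h2).le

theorem zero_notMem_core : (0 : Cn (m + 2)) ∉ core 0 (Om m) := by
  intro h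
  refine h.2 phi ?_ phi_psh phi_bdd phi_strict
  exact contDiffOn_zero.2 phi_psh.1

theorem main (m : ℕ) {s : ℕ∞} (hs : 1 ≤ s) : core 0 (Om m) ≠ core s (Om m) := by
  intro h
  have := zero_mem_core (m := m) hs
  rw [← h] at this
  exact zero_notMem_core this

end Pool.Agent.Seat73.CoreS
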