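import Mathlib

/-!
# The core of a domain in `ℂⁿ`: the definitions
-/

set_option autoImplicit false

namespace Pool.Agent.Seat73.CoreS

/-- `ℂⁿ` with the euclidean norm. -/
abbrev Cn (n : ℕ) : Type := EuclideanSpace ℂ (Fin n)

/-- `φ` is continuous and plurisubharmonic on `U`: the sub-mean value inequality holds on every
closed disc `{z + ζ v : |ζ| ≤ 1}` contained in `U`, `v` any vector. -/
def IsPSH {n : ℕ} (U : Set (Cn n)) (φ : Cn n → ℝ) : Prop :=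
  ContinuousOn φ U ∧ ∀ z v : Cn n, (∀ ζ : ℂ, ‖ζ‖ ≤ 1 → z + ζ • v ∈ U) →
    φ z ≤ Real.circleAverage (fun ζ => φ (z + ζ • v)) 0 1

/-- `φ` is strictly plurisubharmonic at `z`: for some `ε > 0` the function `φ - ε |w|²` is
plurisubharmonic on a neighbourhood of `z`. -/
def IsStrictlyPSHAt {n : ℕ} (φ : Cn n → ℝ) (z : Cn n) : Prop :=
  ∃ U : Set (Cn n), IsOpen U ∧ z ∈ U ∧ ∃ ε : ℝ, 0 < ε ∧ IsPSH U (fun w => φ w - ε * ‖w‖ ^ 2)

/-- The `C^s`-core of `Ω`, `s = 0, 1, 2, ..., ∞`: the points `z` of `Ω` at which no plurisubharmonic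
function on `Ω` which is `C^s`-smooth and bounded from above is strictly plurisubharmonic. -/
def core {n : ℕ} (s : ℕ∞) (Ω : Set (Cn n)) : Set (Cn n) :=
  {z | z ∈ Ω ∧ ∀ φ : Cn n → ℝ, ContDiffOn ℝ s φ Ω → IsPSH Ω φ → BddAbove (φ '' Ω) →
    ¬ IsStrictlyPSHAt φ z}

end Pool.Agent.Seat73.CoreS
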