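import Pool.Agent.Seat73.CoreS.Sub

/-!
# A continuous subharmonic function in the plane

`uu t = |t|² - 1` on the unit disc, `uu ≥ 0` outside, and `uu = 0` on small discs which accumulate at
all the points of the unit circle.
-/

set_option autoImplicit false

open Real Set Metric Filter Topology InnerProductSpace

namespace Pool.Agent.Seat73.CoreS

/-- directions of the centres -/
noncomputable def qq (j : ℕ) : ℂ :=
  if j.unpair.1 = 0 then 1 else
    (TopologicalSpace.denseSeq (sphere (0 : ℂ) 1) (j.unpair.1 - 1) : ℂ)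

/-- absolute values of the centres -/
noncomputable def rr (j : ℕ) : ℝ := 1 + (1 / 2) ^ (j + 1)

/-- radii of the discs -/
noncomputable def rho (j : ℕ) : ℝ := (1 / 2) ^ (j + 3)

/-- centres of the discs -/
noncomputable def xx (j : ℕ) : ℂ := (rr j : ℂ) * qq j

theorem norm_qq (j : ℕ) : ‖qq j‖ = 1 := by
  unfold qq
  split_ifs
  · simp
  · have := (TopologicalSpace.denseSeq (sphere (0 : ℂ) 1) (j.unpair.1 - 1)).2
    simpa using this

theorem norm_xx (j : ℕ) : ‖xx j‖ = rr j := by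
  unfold xx
  rw [norm_mul, norm_qq, mul_one, Complex.norm_real, Real.norm_of_nonneg]
  unfold rr
  positivity

theorem rho_pos (j : ℕ) : 0 < rho j := by unfold rho; positivity

theorem pow_le_one' (j : ℕ) : (1 / 2 : ℝ) ^ j ≤ 1 := pow_le_one₀ (by norm_num) (by norm_num)

theorem rr_eq (j : ℕ) : rr j = 1 + (1 / 2) ^ j / 2 := by unfold rr; rw [pow_succ]; ring

theorem rho_eq (j : ℕ) : rho j = (1 / 2) ^ j / 8 := by unfold rho; rw [pow_add]; ring

theorem norm_of_mem {j : ℕ} {t : ℂ} (h : ‖t - xx j‖ ≤ rho j) :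
    1 + (1 / 2) ^ j * (3 / 8) ≤ ‖t‖ ∧ ‖t‖ ≤ 1 + (1 / 2) ^ j * (5 / 8) := by
  have h1 : |‖t‖ - rr j| ≤ rho j := by
    rw [← norm_xx]
    exact (abs_norm_sub_norm_le _ _).trans h
  rw [rr_eq, rho_eq] at h1
  have h2 := abs_le.1 h1
  constructor <;> linarith [h2.1, h2.2]

theorem one_lt_of_mem {j : ℕ} {t : ℂ} (h : ‖t - xx j‖ ≤ rho j) : 1 < ‖t‖ := by
  have := (norm_of_mem h).1
  have h2 : (0 : ℝ) < (1 / 2) ^ j := by positivity
  linarith

theorem lt_two_of_mem {j : ℕ} {t : ℂ} (h : ‖t - xx j‖ ≤ rho j) : ‖t‖ < 2 := by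
  have := (norm_of_mem h).2
  have h2 := pow_le_one' j
  linarith

theorem sq_of_mem {j : ℕ} {t : ℂ} (h : ‖t - xx j‖ ≤ rho j) : ‖t‖ ^ 2 - 1 ≤ 3 * (1 / 2) ^ j := by
  have h1 := (norm_of_mem h).2
  have h2 := pow_le_one' j
  have h3 : (0 : ℝ) < (1 / 2) ^ j := by positivity
  nlinarith [norm_nonneg t]

theorem disj_aux {j k : ℕ} {t : ℂ} (hj : ‖t - xx j‖ ≤ rho j) (hk : ‖t - xx k‖ ≤ rho k) :
    ¬ j < k := by
  intro hlt
  have h1 := (norm_of_mem hj).1
  have h2 := (norm_of_mem hk).2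
  have h3 : (1 / 2 : ℝ) ^ k ≤ (1 / 2) ^ (j + 1) :=
    pow_le_pow_of_le_one (by norm_num) (by norm_num) hlt
  rw [pow_succ] at h3
  have h4 : (0 : ℝ) < (1 / 2) ^ j := by positivity
  linarith

theorem disj {j k : ℕ} {t : ℂ} (hj : ‖t - xx j‖ ≤ rho j) (hk : ‖t - xx k‖ ≤ rho k) : j = k := by
  rcases lt_trichotomy j k with h | h | h
  · exact absurd h (disj_aux hj hk)
  · exact h
  · exact absurd h (disj_aux hk hj)

/-- cut off -/
noncomputable def eta (j : ℕ) : ℝ := Real.exp (-4 / rho j ^ 2)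

theorem eta_pos (j : ℕ) : 0 < eta j := Real.exp_pos _

theorem rho_le (j : ℕ) : rho j ≤ 1 / 8 := by
  rw [rho_eq]
  have := pow_le_one' j
  linarith

theorem eta_le (j : ℕ) : eta j ≤ 1 := by
  unfold eta
  rw [Real.exp_le_one_iff]
  have := rho_pos j
  have : 0 ≤ 4 / rho j ^ 2 := by positivity
  rw [neg_div]
  linarith

/-- normalized square distance -/
noncomputable def XX (j : ℕ) (t : ℂ) : ℝ := ‖t - xx j‖ ^ 2 / rho j ^ 2

/-- the dip before cutting -/
noncomputable def GG (j : ℕ) (t : ℂ) : ℝ :=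
  rho j ^ 2 * (Real.log (max (min (XX j t) 1) (eta j)) - min (XX j t) 1 + 1)

/-- the dip -/
noncomputable def EE (j : ℕ) (t : ℂ) : ℝ := max (min (1 - ‖t‖ ^ 2) 0) (GG j t)

theorem XX_nonneg (j : ℕ) (t : ℂ) : 0 ≤ XX j t := by unfold XX; positivity

theorem XX_le_one_iff (j : ℕ) (t : ℂ) : XX j t ≤ 1 ↔ ‖t - xx j‖ ≤ rho j := by
  unfold XX
  have := rho_pos j
  rw [div_le_one (by positivity)]
  exact sq_le_sq₀ (norm_nonneg _) this.le

theorem GG_low {j : ℕ} {t : ℂ} (h : XX j t ≤ eta j) : GG j t ≤ -3 := by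
  have h1 : min (XX j t) 1 = XX j t := min_eq_left (h.trans (eta_le j))
  unfold GG
  rw [h1, max_eq_right h, eta, Real.log_exp]
  have h2 := rho_pos j
  have h3 := rho_le j
  have h4 := XX_nonneg j t
  have h5 : rho j ^ 2 * (-4 / rho j ^ 2 - XX j t + 1) = -4 + rho j ^ 2 * (1 - XX j t) := by
    field_simp
    ring
  rw [h5]
  have h6 : rho j ^ 2 * (1 - XX j t) ≤ rho j ^ 2 * 1 :=
    mul_le_mul_of_nonneg_left (by linarith) (by positivity)
  nlinarith

theorem GG_mid {j : ℕ} {t : ℂ} (h : eta j ≤ XX j t) (h' : XX j t ≤ 1) :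
    GG j t = rho j ^ 2 * (Real.log (XX j t) - XX j t + 1) := by
  unfold GG
  rw [min_eq_left h', max_eq_left h]

theorem GG_high {j : ℕ} {t : ℂ} (h : 1 ≤ XX j t) : GG j t = 0 := by
  unfold GG
  rw [min_eq_right h, max_eq_left (eta_le j)]
  simp

theorem GG_nonpos (j : ℕ) (t : ℂ) : GG j t ≤ 0 := by
  rcases le_total (XX j t) (eta j) with h | h
  · linarith [GG_low h]
  rcases le_total (XX j t) 1 with h' | h'
  · rw [GG_mid h h']
    have h1 : 0 < XX j t := (eta_pos j).trans_le h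
    have := Real.log_le_sub_one_of_pos h1
    refine mul_nonpos_of_nonneg_of_nonpos (by positivity) (by linarith)
  · rw [GG_high h']

theorem GG_ge {j : ℕ} {t : ℂ} (h : 0 < XX j t) :
    rho j ^ 2 * (Real.log (XX j t) - XX j t + 1) ≤ GG j t := by
  rcases le_total (XX j t) 1 with h' | h'
  · unfold GG
    rw [min_eq_left h']
    refine mul_le_mul_of_nonneg_left ?_ (by positivity)
    have := Real.log_le_log h (le_max_left (XX j t) (eta j))
    linarith
  · rw [GG_high h']
    have := Real.log_le_sub_one_of_pos h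
    refine mul_nonpos_of_nonneg_of_nonpos (by positivity) (by linarith)

theorem EE_nonpos (j : ℕ) (t : ℂ) : EE j t ≤ 0 := max_le (min_le_right _ _) (GG_nonpos j t)

theorem EE_high {j : ℕ} {t : ℂ} (h : rho j ≤ ‖t - xx j‖) : EE j t = 0 := by
  have h1 : 1 ≤ XX j t := by
    unfold XX
    have := rho_pos j
    rw [one_le_div (by positivity)]
    exact (sq_le_sq₀ this.le (norm_nonneg _)).2 h
  unfold EE
  rw [GG_high h1]
  exact max_eq_right (min_le_right _ _)

theorem EE_disc {j : ℕ} {t : ℂ} (h : ‖t‖ ≤ 1) : EE j t = 0 := by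
  refine EE_high ?_
  by_contra h1
  push Not at h1
  linarith [one_lt_of_mem h1.le]

theorem EE_ge {j : ℕ} {t : ℂ} (h : 1 ≤ ‖t‖) : 1 - ‖t‖ ^ 2 ≤ EE j t := by
  refine le_trans ?_ (le_max_left _ _)
  rw [min_eq_left]
  nlinarith

theorem EE_low {j : ℕ} {t : ℂ} (h : XX j t ≤ eta j) : EE j t = 1 - ‖t‖ ^ 2 := by
  have h1 : ‖t - xx j‖ ≤ rho j := (XX_le_one_iff j t).1 (h.trans (eta_le j))
  have h2 := one_lt_of_mem h1
  have h3 := lt_two_of_mem h1
  unfold EE
  rw [min_eq_left (by nlinarith)]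
  refine max_eq_left ((GG_low h).trans ?_)
  nlinarith

theorem EE_ge_log {j : ℕ} {t : ℂ} (h : 0 < XX j t) :
    rho j ^ 2 * (Real.log (XX j t) - XX j t + 1) ≤ EE j t := (GG_ge h).trans (le_max_right _ _)

theorem EE_mid {j : ℕ} {t : ℂ} (h : ‖t - xx j‖ ≤ rho j) (h' : 1 - ‖t‖ ^ 2 < EE j t) :
    0 < XX j t ∧ EE j t = rho j ^ 2 * (Real.log (XX j t) - XX j t + 1) := by
  have h1 : eta j ≤ XX j t := by
    by_contra hcon
    push Not at hcon
    rw [EE_low hcon.le] at h'
    exact lt_irrefl _ h'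
  refine ⟨(eta_pos j).trans_le h1, ?_⟩
  rw [← GG_mid h1 ((XX_le_one_iff j t).2 h)]
  rcases max_choice (min (1 - ‖t‖ ^ 2) 0) (GG j t) with h2 | h2
  · exfalso
    have h3 : EE j t = min (1 - ‖t‖ ^ 2) 0 := h2
    rw [h3] at h'
    exact absurd (min_le_left (1 - ‖t‖ ^ 2) 0) (not_le.2 h')
  · exact h2

theorem EE_cont (j : ℕ) : Continuous (EE j) := by
  have h1 : Continuous (XX j) := by unfold XX; fun_prop
  have h2 : Continuous (GG j) := by
    unfold GG
    refine continuous_const.mul ((Continuous.sub ?_ (h1.min continuous_const)).add continuous_const)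
    refine Continuous.log ((h1.min continuous_const).max continuous_const) fun t => ?_
    exact ((eta_pos j).trans_le (le_max_right _ _)).ne'
  unfold EE
  exact ((by fun_prop : Continuous fun t : ℂ => 1 - ‖t‖ ^ 2).min continuous_const).max h2

theorem EE_abs (j : ℕ) (t : ℂ) : ‖EE j t‖ ≤ 3 * (1 / 2) ^ j := by
  rw [Real.norm_of_nonpos (EE_nonpos j t)]
  rcases le_total (rho j) ‖t - xx j‖ with h | h
  · rw [EE_high h, neg_zero]
    positivity
  · have h1 := EE_ge (j := j) (one_lt_of_mem h).le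
    have h2 := sq_of_mem h
    linarith

/-- finitely many dips -/
noncomputable def uN (N : ℕ) (t : ℂ) : ℝ := ‖t‖ ^ 2 - 1 + ∑ j ∈ Finset.range N, EE j t

/-- all the dips -/
noncomputable def uu (t : ℂ) : ℝ := ‖t‖ ^ 2 - 1 + ∑' j, EE j t

theorem sum_bound : Summable fun j : ℕ => 3 * (1 / 2 : ℝ) ^ j :=
  summable_geometric_two.mul_left 3

theorem EE_summable (t : ℂ) : Summable fun j => EE j t :=
  Summable.of_norm_bounded sum_bound fun j => EE_abs j t

theorem uu_cont : Continuous uu := by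
  unfold uu
  exact (by fun_prop : Continuous fun t : ℂ => ‖t‖ ^ 2 - 1).add
    (continuous_tsum EE_cont sum_bound fun j t => EE_abs j t)

theorem uN_cont (N : ℕ) : Continuous (uN N) := by
  unfold uN
  exact (by fun_prop : Continuous fun t : ℂ => ‖t‖ ^ 2 - 1).add
    (continuous_finsetSum _ fun j _ => EE_cont j)

theorem uu_le_uN (N : ℕ) (t : ℂ) : uu t ≤ uN N t := by
  unfold uu uN
  rw [← (EE_summable t).sum_add_tsum_nat_add N]
  have : ∑' i, EE (i + N) t ≤ 0 := tsum_nonpos fun i => EE_nonpos _ _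
  linarith

theorem uN_le_uu (N : ℕ) (t : ℂ) : uN N t ≤ uu t + 6 * (1 / 2) ^ N := by
  unfold uu uN
  rw [← (EE_summable t).sum_add_tsum_nat_add N]
  have h1 : ‖∑' i, EE (i + N) t‖ ≤ 6 * (1 / 2) ^ N := by
    have h2 : HasSum (fun i : ℕ => 3 * (1 / 2 : ℝ) ^ (i + N)) (6 * (1 / 2) ^ N) := by
      have := hasSum_geometric_two.mul_left (3 * (1 / 2 : ℝ) ^ N)
      have h3 : 3 * (1 / 2 : ℝ) ^ N * 2 = 6 * (1 / 2) ^ N := by ring
      rw [h3] at this
      refine this.congr_fun ?_ |> fun h => h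
      intro i
      rw [pow_add]
      ring
    exact tsum_of_norm_bounded h2 fun i => EE_abs _ _
  have := (abs_le.1 h1).1
  linarith

theorem uu_disc {t : ℂ} (h : ‖t‖ ≤ 1) : uu t = ‖t‖ ^ 2 - 1 := by
  unfold uu
  rw [tsum_congr fun j => EE_disc (j := j) h]
  simp

theorem uu_le (t : ℂ) : uu t ≤ ‖t‖ ^ 2 - 1 := by
  have := uu_le_uN 0 t
  unfold uN at this
  simpa using this

theorem tsum_single {k : ℕ} {t : ℂ} (h : ‖t - xx k‖ ≤ rho k) : ∑' j, EE j t = EE k t :=
  tsum_eq_single k fun j hj => EE_high (by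
    by_contra hcon
    push Not at hcon
    exact hj (disj hcon.le h))

theorem uu_nonneg {t : ℂ} (h : 1 ≤ ‖t‖) : 0 ≤ uu t := by
  unfold uu
  by_cases hk : ∃ k, ‖t - xx k‖ ≤ rho k
  · obtain ⟨k, hk⟩ := hk
    rw [tsum_single hk]
    linarith [EE_ge (j := k) h]
  · push Not at hk
    rw [tsum_congr fun j => EE_high (hk j).le, tsum_zero]
    nlinarith

theorem uu_zero {k : ℕ} {t : ℂ} (h : XX k t ≤ eta k) : uu t = 0 := by
  unfold uu
  rw [tsum_single ((XX_le_one_iff k t).1 (h.trans (eta_le k))), EE_low h]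
  ring

/-- the harmonic tangent of the square norm -/
theorem sq_tangent (a b : ℂ) : ‖a‖ ^ 2 + 2 * ((starRingEnd ℂ) a * (b - a)).re ≤ ‖b‖ ^ 2 := by
  have h : ‖b‖ ^ 2 = ‖a‖ ^ 2 + 2 * ((starRingEnd ℂ) a * (b - a)).re + ‖b - a‖ ^ 2 := by
    rw [← Complex.normSq_eq_norm_sq, ← Complex.normSq_eq_norm_sq, ← Complex.normSq_eq_norm_sq,
      Complex.normSq_apply, Complex.normSq_apply, Complex.normSq_apply]
    simp
    ring
  rw [h]
  linarith [sq_nonneg ‖b - a‖]

theorem harm_re {g : ℂ → ℂ} (hg : Differentiable ℂ g) (z : ℂ) : HarmonicAt (fun t => (g t).re) z :=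
  (hg.analyticAt z).harmonicAt_re

/-- The function with finitely many dips is locally sub-mean along every complex line. -/
theorem uN_lsm (N : ℕ) (z v ζ₀ : ℂ) : LSM (fun ζ => uN N (z + ζ * v)) ζ₀ := by
  set L : ℂ → ℂ := fun ζ => z + ζ * v with hL
  have hLc : Continuous L := by fun_prop
  have hLd : Differentiable ℂ L := by fun_prop
  have hLt : Tendsto L (𝓝 ζ₀) (𝓝 (L ζ₀)) := hLc.continuousAt
  have hfc : ∀ᶠ ζ in 𝓝 ζ₀, ContinuousAt (fun ζ => uN N (L ζ)) ζ :=
    Eventually.of_forall fun ζ => ((uN_cont N).comp hLc).continuousAt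
  by_cases hk : ∃ k ∈ Finset.range N, ‖L ζ₀ - xx k‖ ≤ rho k
  · obtain ⟨k, hkN, hk⟩ := hk
    have hloc : ∀ᶠ ζ in 𝓝 ζ₀, uN N (L ζ) = ‖L ζ‖ ^ 2 - 1 + EE k (L ζ) := by
      have h1 : ∀ᶠ t in 𝓝 (L ζ₀), ∀ j ∈ Finset.range N, j ≠ k → rho j < ‖t - xx j‖ := by
        rw [eventually_all_finset]
        intro j _
        rw [eventually_all]
        intro hj
        refine (isOpen_lt continuous_const (by fun_prop)).mem_nhds ?_
        by_contra hcon
        exact hj (disj (not_lt.1 hcon) hk)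
      filter_upwards [hLt.eventually h1] with ζ hζ
      unfold uN
      rw [Finset.sum_eq_single_of_mem k hkN fun j hj hjk => EE_high (hζ j hj hjk).le]
    have hval := hloc.self_of_nhds
    rcases le_or_gt (EE k (L ζ₀)) (1 - ‖L ζ₀‖ ^ 2) with h1 | h1
    · refine LSM.of_harmonic (H := fun _ => 0) (harmonicAt_const 0) hfc ?_ ?_
      · have h2 : ∀ᶠ t in 𝓝 (L ζ₀), 1 < ‖t‖ :=
          (isOpen_lt continuous_const continuous_norm).mem_nhds (one_lt_of_mem hk)
        filter_upwards [hloc, hLt.eventually h2] with ζ h3 h4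
        rw [h3]
        linarith [EE_ge (j := k) h4.le]
      · show 0 = uN N (L ζ₀)
        rw [hval]
        linarith [EE_ge (j := k) (one_lt_of_mem hk).le]
    · obtain ⟨h2, h3⟩ := EE_mid hk h1
      have hρ := rho_pos k
      have hne : L ζ₀ - xx k ≠ 0 := by
        intro h0
        unfold XX at h2
        rw [h0] at h2
        simp at h2
      have hform : ∀ t : ℂ, t - xx k ≠ 0 → ‖t‖ ^ 2 - 1 +
          rho k ^ 2 * (Real.log (XX k t) - XX k t + 1) =
          (2 * ((starRingEnd ℂ) (xx k) * t)).re + (2 * rho k ^ 2) * Real.log ‖t - xx k‖ +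
            (rho k ^ 2 - rho k ^ 2 * Real.log (rho k ^ 2) - 1 - ‖xx k‖ ^ 2) := by
        intro t ht
        have h4 : rho k ^ 2 * XX k t = ‖t - xx k‖ ^ 2 := by
          unfold XX
          field_simp
        have h5 : Real.log (XX k t) = 2 * Real.log ‖t - xx k‖ - Real.log (rho k ^ 2) := by
          unfold XX
          rw [Real.log_div (by positivity) (by positivity), Real.log_pow]
          norm_num
        have h6 : ‖t‖ ^ 2 - ‖t - xx k‖ ^ 2 = (2 * ((starRingEnd ℂ) (xx k) * t)).re - ‖xx k‖ ^ 2 := by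
          rw [← Complex.normSq_eq_norm_sq, ← Complex.normSq_eq_norm_sq, ← Complex.normSq_eq_norm_sq,
            Complex.normSq_apply, Complex.normSq_apply, Complex.normSq_apply]
          simp
          ring
        rw [h5]
        linear_combination h6 - h4
      refine LSM.of_harmonic (H := fun ζ => (2 * ((starRingEnd ℂ) (xx k) * L ζ)).re +
        (2 * rho k ^ 2) * Real.log ‖L ζ - xx k‖ +
            (rho k ^ 2 - rho k ^ 2 * Real.log (rho k ^ 2) - 1 - ‖xx k‖ ^ 2)) ?_ hfc ?_ ?_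
      · refine HarmonicAt.add (HarmonicAt.add ?_ ?_) (harmonicAt_const _)
        · exact harm_re (g := fun ζ => 2 * ((starRingEnd ℂ) (xx k) * L ζ)) (by fun_prop) _
        · have h7 : HarmonicAt (fun ζ => Real.log ‖L ζ - xx k‖) ζ₀ :=
            AnalyticAt.harmonicAt_log_norm (f := fun ζ => L ζ - xx k)
              ((hLd.sub_const _).analyticAt _) hne
          exact h7.const_smul (c := 2 * rho k ^ 2)
      · have h8 : ∀ᶠ t in 𝓝 (L ζ₀), t - xx k ≠ 0 :=
          (isOpen_ne_fun (by fun_prop) continuous_const).mem_nhds hne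
        filter_upwards [hloc, hLt.eventually h8] with ζ h9 h10
        rw [h9, ← hform _ h10]
        have h11 : 0 < XX k (L ζ) := by
          unfold XX
          have := norm_pos_iff.2 h10
          positivity
        linarith [EE_ge_log h11]
      · show _ = uN N (L ζ₀)
        rw [hval, h3, ← hform _ hne]
  · push Not at hk
    have hloc : ∀ᶠ ζ in 𝓝 ζ₀, uN N (L ζ) = ‖L ζ‖ ^ 2 - 1 := by
      have h1 : ∀ᶠ t in 𝓝 (L ζ₀), ∀ j ∈ Finset.range N, rho j < ‖t - xx j‖ := by
        rw [eventually_all_finset]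
        intro j hj
        exact (isOpen_lt continuous_const (by fun_prop)).mem_nhds (hk j hj)
      filter_upwards [hLt.eventually h1] with ζ hζ
      unfold uN
      rw [Finset.sum_eq_zero fun j hj => EE_high (hζ j hj).le, add_zero]
    have hval := hloc.self_of_nhds
    refine LSM.of_harmonic (H := fun ζ => ((starRingEnd ℂ) (L ζ₀) * 2 * (L ζ - L ζ₀)).re +
      (‖L ζ₀‖ ^ 2 - 1)) ?_ hfc ?_ ?_
    · refine HarmonicAt.add ?_ (harmonicAt_const _)
      exact harm_re (g := fun ζ => (starRingEnd ℂ) (L ζ₀) * 2 * (L ζ - L ζ₀)) (by fun_prop) _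
    · filter_upwards [hloc] with ζ hζ
      rw [hζ]
      have := sq_tangent (L ζ₀) (L ζ)
      have h2 : ((starRingEnd ℂ) (L ζ₀) * 2 * (L ζ - L ζ₀)).re =
          2 * ((starRingEnd ℂ) (L ζ₀) * (L ζ - L ζ₀)).re := by
        have : (starRingEnd ℂ) (L ζ₀) * 2 * (L ζ - L ζ₀) =
          ((2 : ℝ) : ℂ) * ((starRingEnd ℂ) (L ζ₀) * (L ζ - L ζ₀)) := by push_cast; ring
        rw [this, Complex.re_ofReal_mul]
      rw [h2]
      linarith
    · show _ = uN N (L ζ₀)
      rw [hval]
      simp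

theorem uu_gsm : GSM univ uu := by
  intro z v _
  have hN : ∀ N : ℕ, uu z ≤ circleAverage (fun ζ => uu (z + ζ * v)) 0 1 + 6 * (1 / 2) ^ N := by
    intro N
    have h1 : uN N z ≤ circleAverage (fun ζ => uN N (z + ζ * v)) 0 1 := by
      have := local_to_global (f := fun ζ => uN N (z + ζ * v))
        (((uN_cont N).comp (by fun_prop)).continuousOn) fun ζ₀ _ => uN_lsm N z v ζ₀
      simpa using this
    have hcu : Continuous fun ζ : ℂ => uu (z + ζ * v) := uu_cont.comp (by fun_prop)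
    have h2 : circleAverage (fun ζ => uN N (z + ζ * v)) 0 1 ≤
        circleAverage (fun ζ => uu (z + ζ * v) + 6 * (1 / 2) ^ N) 0 1 := by
      refine circleAverage_mono (circInt zero_le_one ?_) (circInt zero_le_one ?_) fun ζ _ => ?_
      · exact ((uN_cont N).comp (by fun_prop)).continuousOn
      · exact (hcu.add continuous_const).continuousOn
      · exact uN_le_uu N _
    rw [circleAverage_fun_add (circInt zero_le_one hcu.continuousOn)
      (circInt zero_le_one continuousOn_const), circleAverage_const] at h2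
    linarith [uu_le_uN N z]
  have hlim : Tendsto (fun N : ℕ => circleAverage (fun ζ => uu (z + ζ * v)) 0 1 +
      6 * (1 / 2 : ℝ) ^ N) atTop (𝓝 (circleAverage (fun ζ => uu (z + ζ * v)) 0 1 + 6 * 0)) :=
    tendsto_const_nhds.add ((tendsto_pow_atTop_nhds_zero_of_lt_one (by norm_num)
      (by norm_num)).const_mul 6)
  rw [mul_zero, add_zero] at hlim
  exact ge_of_tendsto' hlim hN

end Pool.Agent.Seat73.CoreS
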