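import Pool.Agent.Seat73.CoreS.Defs
import Pool.Agent.Seat73.CoreS.Ex

/-!
# The domain
-/

set_option autoImplicit false

open Real Set Metric Filter Topology InnerProductSpace

namespace Pool.Agent.Seat73.CoreS

variable {m : ℕ}

/-- radius of the disc on which `uu = 0` -/
noncomputable def dd (k : ℕ) : ℝ := rho k * Real.sqrt (eta k)

theorem dd_pos (k : ℕ) : 0 < dd k := mul_pos (rho_pos k) (Real.sqrt_pos.2 (eta_pos k))

theorem XX_of_dd {k : ℕ} {t : ℂ} (h : ‖t - xx k‖ < dd k) : XX k t ≤ eta k := by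
  unfold XX
  have h1 := rho_pos k
  rw [div_le_iff₀ (by positivity)]
  have h2 : ‖t - xx k‖ ^ 2 ≤ dd k ^ 2 := pow_le_pow_left₀ (norm_nonneg _) h.le 2
  have h3 : dd k ^ 2 = eta k * rho k ^ 2 := by
    unfold dd
    rw [mul_pow, Real.sq_sqrt (eta_pos k).le]
    ring
  rw [h3] at h2
  exact h2

/-- the polydisc condition in the last variables -/
def QQ (m : ℕ) : Set (Cn (m + 2)) := {z | ∀ j : Fin m, ‖z j.succ.succ‖ < 1}

/-- first piece -/
def P1 (m : ℕ) : Set (Cn (m + 2)) := {z | ‖z 0‖ < 2} ∩ {z | ‖z 1‖ < 1} ∩ QQ m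

/-- second piece -/
def P2 (m k : ℕ) : Set (Cn (m + 2)) := {z | ‖z 0 - xx k‖ < dd k} ∩ QQ m

/-- third piece -/
def P3 (m : ℕ) : Set (Cn (m + 2)) := {z | ‖z 1 - 3‖ < 1} ∩ QQ m

/-- the domain -/
def Om (m : ℕ) : Set (Cn (m + 2)) := P1 m ∪ (⋃ k, P2 m k) ∪ P3 m

theorem conv_ball (i : Fin (m + 2)) (c : ℂ) (r : ℝ) :
    Convex ℝ {z : Cn (m + 2) | ‖z i - c‖ < r} := by
  intro x hx y hy a b ha hb hab
  have h1 : x i ∈ ball c r := by simpa [dist_eq_norm] using hx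
  have h2 : y i ∈ ball c r := by simpa [dist_eq_norm] using hy
  have h3 := convex_ball c r h1 h2 ha hb hab
  rw [mem_ball, dist_eq_norm] at h3
  simpa using h3

theorem conv_ball0 (i : Fin (m + 2)) (r : ℝ) : Convex ℝ {z : Cn (m + 2) | ‖z i‖ < r} := by
  simpa using conv_ball (m := m) i 0 r

theorem conv_QQ : Convex ℝ (QQ m) := by
  have : QQ m = ⋂ j : Fin m, {z : Cn (m + 2) | ‖z j.succ.succ‖ < 1} := by
    ext z; simp [QQ]
  rw [this]
  exact convex_iInter fun j => conv_ball0 _ _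

theorem isOpen_coord (i : Fin (m + 2)) (c : ℂ) (r : ℝ) :
    IsOpen {z : Cn (m + 2) | ‖z i - c‖ < r} :=
  isOpen_lt (by fun_prop) continuous_const

theorem isOpen_coord0 (i : Fin (m + 2)) (r : ℝ) :
    IsOpen {z : Cn (m + 2) | ‖z i‖ < r} :=
  isOpen_lt (by fun_prop) continuous_const

theorem isOpen_QQ : IsOpen (QQ m) := by
  have : QQ m = ⋂ j : Fin m, {z : Cn (m + 2) | ‖z j.succ.succ‖ < 1} := by
    ext z; simp [QQ]
  rw [this]
  exact isOpen_iInter_of_finite fun j => isOpen_coord0 _ _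

theorem isOpen_P1 : IsOpen (P1 m) :=
  ((isOpen_coord0 0 2).inter (isOpen_coord0 1 1)).inter isOpen_QQ

theorem isOpen_P2 (k : ℕ) : IsOpen (P2 m k) := (isOpen_coord 0 _ _).inter isOpen_QQ

theorem isOpen_P3 : IsOpen (P3 m) := (isOpen_coord 1 3 1).inter isOpen_QQ

theorem isOpen_Om : IsOpen (Om m) :=
  (isOpen_P1.union (isOpen_iUnion fun k => isOpen_P2 k)).union isOpen_P3

/-- the point `(t, w, 0, ..., 0)` -/
noncomputable def pt (t w : ℂ) : Cn (m + 2) :=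
  EuclideanSpace.single 0 t + EuclideanSpace.single 1 w

@[simp] theorem pt_zero (t w : ℂ) : (pt t w : Cn (m + 2)) 0 = t := by
  simp [pt]

@[simp] theorem pt_one (t w : ℂ) : (pt t w : Cn (m + 2)) 1 = w := by
  simp [pt]

@[simp] theorem pt_succ (t w : ℂ) (j : Fin m) : (pt t w : Cn (m + 2)) j.succ.succ = 0 := by
  have h0 : (j.succ.succ : Fin (m + 2)) ≠ 0 := Fin.succ_ne_zero _
  have h1 : (j.succ.succ : Fin (m + 2)) ≠ 1 := by
    rw [← Fin.succ_zero_eq_one]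
    exact fun h => Fin.succ_ne_zero _ (Fin.succ_injective _ h)
  simp [pt, h0, h1]

theorem ext_pt {z w : Cn (m + 2)} (h0 : z 0 = w 0) (h1 : z 1 = w 1)
    (h : ∀ j : Fin m, z j.succ.succ = w j.succ.succ) : z = w := by
  ext i
  refine Fin.cases h0 (fun i => ?_) i
  exact Fin.cases h1 (fun j => h j) i

theorem pt_add (t w t' w' : ℂ) : (pt t w + pt t' w' : Cn (m + 2)) = pt (t + t') (w + w') :=
  ext_pt (by simp) (by simp) fun j => by simp

theorem pt_smul (ζ t w : ℂ) : (ζ • pt t w : Cn (m + 2)) = pt (ζ * t) (ζ * w) :=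
  ext_pt (by simp) (by simp) fun j => by simp

theorem pt_QQ (t w : ℂ) : (pt t w : Cn (m + 2)) ∈ QQ m := fun j => by simp

theorem pt_cont : Continuous fun p : ℂ × ℂ => (pt p.1 p.2 : Cn (m + 2)) := by
  unfold pt
  refine Continuous.add ?_ ?_
  · exact (PiLp.continuous_toLp 2 _).comp
      ((continuous_single (A := fun _ : Fin (m + 2) => ℂ) 0).comp continuous_fst)
  · exact (PiLp.continuous_toLp 2 _).comp
      ((continuous_single (A := fun _ : Fin (m + 2) => ℂ) 1).comp continuous_snd)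

theorem pt_mem_P1 {t w : ℂ} (ht : ‖t‖ < 2) (hw : ‖w‖ < 1) : (pt t w : Cn (m + 2)) ∈ P1 m :=
  ⟨⟨by simpa using ht, by simpa using hw⟩, pt_QQ _ _⟩

theorem pt_mem_P2 {k : ℕ} {t : ℂ} (w : ℂ) (ht : ‖t - xx k‖ < dd k) :
    (pt t w : Cn (m + 2)) ∈ P2 m k :=
  ⟨by simpa using ht, pt_QQ _ _⟩

theorem pt_mem_P3 (t : ℂ) {w : ℂ} (hw : ‖w - 3‖ < 1) : (pt t w : Cn (m + 2)) ∈ P3 m :=
  ⟨by simpa using hw, pt_QQ _ _⟩

theorem xx_norm_lt (k : ℕ) : ‖xx k‖ < 2 :=
  lt_two_of_mem (j := k) (by simpa using (rho_pos k).le)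

theorem isConnected_Om : IsConnected (Om m) := by
  have hO : Om m = ⋃ k : ℕ, (P1 m ∪ P2 m k) ∪ P3 m := by
    unfold Om
    rw [union_iUnion, iUnion_union]
  have h1 : IsPreconnected (P1 m) := (((conv_ball0 0 2).inter (conv_ball0 1 1)).inter conv_QQ).isPreconnected
  have h2 : ∀ k, IsPreconnected (P2 m k) := fun k => ((conv_ball 0 _ _).inter conv_QQ).isPreconnected
  have h3 : IsPreconnected (P3 m) := ((conv_ball 1 3 1).inter conv_QQ).isPreconnected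
  have h0 : (pt 0 0 : Cn (m + 2)) ∈ P1 m := pt_mem_P1 (by simp) (by simp)
  rw [hO]
  refine ⟨⟨pt 0 0, mem_iUnion.2 ⟨0, Or.inl (Or.inl h0)⟩⟩, ?_⟩
  refine isPreconnected_iUnion ⟨pt 0 0, mem_iInter.2 fun k => Or.inl (Or.inl h0)⟩ fun k => ?_
  have hx : ‖xx k - xx k‖ < dd k := by simpa using dd_pos k
  have h12 : IsPreconnected (P1 m ∪ P2 m k) :=
    h1.union (pt (xx k) 0) (pt_mem_P1 (xx_norm_lt k) (by simp)) (pt_mem_P2 0 hx) (h2 k)
  exact h12.union (pt (xx k) 3) (Or.inr (pt_mem_P2 3 hx)) (pt_mem_P3 _ (by simp)) h3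

theorem P1_sub : P1 m ⊆ Om m := fun _ h => Or.inl (Or.inl h)
theorem P2_sub (k : ℕ) : P2 m k ⊆ Om m := fun _ h => Or.inl (Or.inr (mem_iUnion.2 ⟨k, h⟩))
theorem P3_sub : P3 m ⊆ Om m := fun _ h => Or.inr h

/-- The centres accumulate at every point of the unit circle. -/
theorem exists_xx {t : ℂ} (ht : ‖t‖ = 1) {ε : ℝ} (hε : 0 < ε) : ∃ k, ‖xx k - t‖ < ε := by
  have hd := TopologicalSpace.denseRange_denseSeq (sphere (0 : ℂ) 1)
  obtain ⟨n, hn⟩ := hd.exists_dist_lt ⟨t, by simpa using ht⟩ (half_pos hε)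
  rw [Subtype.dist_eq, dist_comm, dist_eq_norm] at hn
  obtain ⟨l, hl⟩ := exists_pow_lt_of_lt_one (half_pos hε) (by norm_num : (1 / 2 : ℝ) < 1)
  refine ⟨Nat.pair (n + 1) l, ?_⟩
  set k := Nat.pair (n + 1) l with hk
  have h1 : qq k = (TopologicalSpace.denseSeq (sphere (0 : ℂ) 1) n : ℂ) := by
    unfold qq
    rw [hk, Nat.unpair_pair]
    simp
  have h2 : ‖xx k - qq k‖ < ε / 2 := by
    have : xx k - qq k = (((1 / 2 : ℝ) ^ (k + 1) : ℝ) : ℂ) * qq k := by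
      unfold xx rr
      push_cast
      ring
    rw [this, norm_mul, norm_qq, mul_one, Complex.norm_real, Real.norm_of_nonneg (by positivity)]
    refine lt_of_le_of_lt ?_ hl
    exact pow_le_pow_of_le_one (by norm_num) (by norm_num)
      ((Nat.right_le_pair _ _).trans (Nat.le_succ _))
  have h3 : xx k - t = (xx k - qq k) + (qq k - t) := by ring
  rw [h3]
  have h4 : ‖qq k - t‖ < ε / 2 := by
    rw [h1]
    exact hn
  linarith [norm_add_le (xx k - qq k) (qq k - t)]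

/-- The radial sequence at the point `1`. -/
theorem xx_radial (l : ℕ) : ∃ k, xx k = ((1 + (1 / 2) ^ (k + 1) : ℝ) : ℂ) ∧ l ≤ k := by
  refine ⟨Nat.pair 0 l, ?_, Nat.right_le_pair _ _⟩
  unfold xx qq
  rw [Nat.unpair_pair]
  simp [rr]

end Pool.Agent.Seat73.CoreS
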