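import Pool.Agent.Seat73.CoreS.Dom

/-!
# The origin belongs to the `C^s`-core for `s ≥ 1`
-/

set_option autoImplicit false

open Real Set Metric Filter Topology InnerProductSpace

namespace Pool.Agent.Seat73.CoreS

variable {m : ℕ}

theorem psh_line {n : ℕ} {U : Set (Cn n)} {φ : Cn n → ℝ} (h : IsPSH U φ) (P V : Cn n) {D : Set ℂ}
    (hD : ∀ t ∈ D, P + t • V ∈ U) :
    ContinuousOn (fun t : ℂ => φ (P + t • V)) D ∧ GSM D (fun t => φ (P + t • V)) := by
  refine ⟨h.1.comp (by fun_prop) hD, fun z v hz => ?_⟩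
  have h1 := h.2 (P + z • V) (v • V) fun ζ hζ => by
    have := hD _ (hz ζ hζ)
    rwa [add_smul, mul_smul, ← add_assoc] at this
  have h2 : (fun ζ : ℂ => φ (P + (z + ζ * v) • V)) = fun ζ => φ (P + z • V + ζ • v • V) := by
    funext ζ
    rw [add_smul, mul_smul, ← add_assoc]
  show φ (P + z • V) ≤ circleAverage (fun ζ : ℂ => φ (P + (z + ζ * v) • V)) 0 1
  rw [h2]
  exact h1

theorem pt_line_t (t w : ℂ) : (pt t w : Cn (m + 2)) = pt 0 w + t • pt 1 0 := by
  rw [pt_smul, pt_add]; simp

theorem pt_line_w (t w : ℂ) : (pt t w : Cn (m + 2)) = pt t 0 + w • pt 0 1 := by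
  rw [pt_smul, pt_add]; simp

/-- A function which is psh on the domain and bounded above is constant along `ℂ × {3}` and `{t} × ℂ`. -/
theorem const_on {φ : Cn (m + 2) → ℝ} (h : IsPSH (Om m) φ) (hb : BddAbove (φ '' Om m)) {k : ℕ}
    {t : ℂ} (ht : ‖t - xx k‖ < dd k) : φ (pt t 0) = φ (pt 0 3) := by
  obtain ⟨B, hB⟩ := hb
  have h1 : φ (pt t 3) = φ (pt 0 3) := by
    obtain ⟨hc, hg⟩ := psh_line h (pt 0 3) (pt 1 0) (D := univ) fun t _ => by
      rw [← pt_line_t]
      exact P3_sub (pt_mem_P3 t (by simp))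
    have := liouville (continuousOn_univ.1 hc) hg (B := B) (fun t => by
      rw [← pt_line_t]
      exact hB (mem_image_of_mem _ (P3_sub (pt_mem_P3 t (by simp))))) t 0
    simpa only [← pt_line_t] using this
  have h2 : φ (pt t 0) = φ (pt t 3) := by
    obtain ⟨hc, hg⟩ := psh_line h (pt t 0) (pt 0 1) (D := univ) fun w _ => by
      rw [← pt_line_w]
      exact P2_sub k (pt_mem_P2 w ht)
    have := liouville (continuousOn_univ.1 hc) hg (B := B) (fun w => by
      rw [← pt_line_w]
      exact hB (mem_image_of_mem _ (P2_sub k (pt_mem_P2 w ht)))) 0 3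
    simpa only [← pt_line_w] using this
  rw [h2, h1]

/-- One variable statement: the Hopf lemma. -/
theorem hopf {v : ℂ → ℝ} {c : ℝ} (hc : ContinuousOn v (ball 0 2)) (hg : GSM (ball 0 2) v)
    (h1 : ∀ t, ‖t‖ = 1 → v t = c) (hd : ∀ D, HasDerivAt (fun x : ℝ => v x) D 1 → D = 0)
    (hdiff : DifferentiableAt ℝ (fun x : ℝ => v x) 1) : ∀ t, ‖t‖ ≤ 1 → v t = c := by
  have hsub : ∀ r < (2 : ℝ), closedBall (0 : ℂ) r ⊆ ball 0 2 := fun r hr t ht => by
    rw [mem_closedBall, dist_zero_right] at ht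
    rw [mem_ball, dist_zero_right]
    linarith
  have hl : ∀ t ∈ ball (0 : ℂ) 2, LSM v t := fun t ht => by
    have := hg.lsm (z := 0) (v := 1) (ζ₀ := t) (by simpa using isOpen_ball.mem_nhds ht)
    simpa using this
  have hle : ∀ t ∈ closedBall (0 : ℂ) 1, v t ≤ c := by
    refine max_principle (isCompact_closedBall _ _) (hc.mono (hsub 1 (by norm_num)))
      fun t ht => ?_
    by_cases ht1 : ‖t‖ = 1
    · exact Or.inl (h1 t ht1).le
    · right
      have htb : t ∈ ball (0 : ℂ) 1 := by
        rw [mem_closedBall, dist_zero_right] at ht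
        rw [mem_ball, dist_zero_right]
        exact lt_of_le_of_ne ht ht1
      exact ⟨mem_of_superset (isOpen_ball.mem_nhds htb) ball_subset_closedBall,
        hl t (hsub 1 (by norm_num) ht)⟩
  by_cases hex : ∃ t₀ : ℂ, ‖t₀‖ = 1 / 2 ∧ v t₀ = c
  · obtain ⟨t₀, ht₀, hv₀⟩ := hex
    -- from `t₀` to `0`
    have hsphere : ∀ (z w : ℂ) (hw : ∀ ζ : ℂ, ‖ζ‖ ≤ 1 → ‖z + ζ * w‖ ≤ 1), v z = c →
        v (z + w) = c := by
      intro z w hw hz
      by_contra hne
      have hle' : ∀ ζ ∈ sphere (0 : ℂ) |1|, v (z + ζ * w) ≤ c := fun ζ hζ =>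
        hle _ (by simpa using hw ζ (by simpa using (mem_sphere_zero_iff_norm.1 hζ).le))
      have hlt : v (z + 1 * w) < c := by
        refine lt_of_le_of_ne (hle' 1 (by simp)) ?_
        simpa using hne
      have hcont : ContinuousOn (fun ζ : ℂ => v (z + ζ * w)) (sphere 0 |1|) := by
        refine hc.comp (by fun_prop) fun ζ hζ => hsub 1 (by norm_num) ?_
        simpa using hw ζ (by simpa using (mem_sphere_zero_iff_norm.1 hζ).le)
      have h2 := avg_lt hcont hle' (p := 1) (by simp) hlt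
      have h3 := hg z w fun ζ hζ => hsub 1 (by norm_num) (by simpa using hw ζ hζ)
      linarith
    have h0 : v 0 = c := by
      have := hsphere t₀ (-t₀) (fun ζ hζ => by
        calc ‖t₀ + ζ * -t₀‖ ≤ ‖t₀‖ + ‖ζ * -t₀‖ := norm_add_le _ _
          _ = 1 / 2 + ‖ζ‖ * (1 / 2) := by rw [norm_mul, norm_neg, ht₀]
          _ ≤ 1 := by linarith) hv₀
      simpa using this
    intro t ht
    have := hsphere 0 t (fun ζ hζ => by
      rw [zero_add, norm_mul]
      exact mul_le_one₀ hζ (norm_nonneg _) ht) h0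
    simpa using this
  · exfalso
    push Not at hex
    have hcomp : IsCompact (sphere (0 : ℂ) (1 / 2)) := isCompact_sphere _ _
    obtain ⟨t₁, ht₁, hmax⟩ := hcomp.exists_isMaxOn
      ⟨((1 / 2 : ℝ) : ℂ), by
        rw [mem_sphere_zero_iff_norm, Complex.norm_real, Real.norm_of_nonneg (by norm_num)]⟩
      (hc.mono (sphere_subset_closedBall.trans (hsub (1 / 2) (by norm_num))))
    have ht₁' : ‖t₁‖ = 1 / 2 := mem_sphere_zero_iff_norm.1 ht₁
    have hlt : v t₁ < c :=
      lt_of_le_of_ne (hle t₁ (by simp [ht₁']; norm_num)) (hex t₁ ht₁')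
    set κ := (c - v t₁) / Real.log 2 with hκ
    have hlog2 : 0 < Real.log 2 := Real.log_pos (by norm_num)
    have hκ0 : 0 < κ := div_pos (by linarith) hlog2
    have hmem : ∀ t ∈ closedBall (0 : ℂ) 1 \ ball 0 (1 / 2), 1 / 2 ≤ ‖t‖ ∧ ‖t‖ ≤ 1 := by
      intro t ht
      constructor
      · simpa using ht.2
      · simpa using ht.1
    have hkey : ∀ t ∈ closedBall (0 : ℂ) 1 \ ball 0 (1 / 2), v t - κ * Real.log ‖t‖ ≤ c := by
      refine max_principle ((isCompact_closedBall 0 1).diff isOpen_ball) ?_ fun t ht => ?_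
      · refine (hc.mono fun t ht => hsub 1 (by norm_num) ht.1).sub (continuousOn_const.mul ?_)
        refine ContinuousOn.log continuous_norm.continuousOn fun t ht => ?_
        have := (hmem t ht).1
        exact (by linarith : (0 : ℝ) < ‖t‖).ne'
      · obtain ⟨h2, h3⟩ := hmem t ht
        rcases eq_or_lt_of_le h2 with h2 | h2
        · left
          rw [← h2]
          have h4 : v t ≤ v t₁ := hmax (by simp [← h2])
          have h5 : κ * Real.log (1 / 2) = -(c - v t₁) := by
            rw [one_div, Real.log_inv, hκ]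
            field_simp
          rw [h5]
          linarith
        rcases eq_or_lt_of_le h3 with h3 | h3
        · left
          rw [h3, Real.log_one, mul_zero, sub_zero]
          exact (h1 t h3).le
        right
        constructor
        · have ho : IsOpen (ball (0 : ℂ) 1 \ closedBall 0 (1 / 2)) :=
            isOpen_ball.sdiff isClosed_closedBall
          refine mem_of_superset (ho.mem_nhds ⟨by simpa using h3, by simpa using h2⟩) ?_
          exact sdiff_subset_sdiff ball_subset_closedBall ball_subset_closedBall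
        · have htb : t ∈ ball (0 : ℂ) 2 := hsub 1 (by norm_num) ht.1
          refine (hl t htb).sub_harmonic ?_ ?_
          · filter_upwards [isOpen_ball.mem_nhds htb] with s hs
            exact hc.continuousAt (isOpen_ball.mem_nhds hs)
          have h4 : HarmonicAt (fun s : ℂ => Real.log ‖s‖) t :=
            analyticAt_id.harmonicAt_log_norm (by
              intro h0
              have : t = 0 := h0
              rw [this, norm_zero] at h2
              linarith)
          exact h4.const_smul (c := κ)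
    have hder := hdiff.hasDerivAt
    rw [hd _ hder] at hder
    have hslope : Tendsto (slope (fun x : ℝ => v x) 1) (𝓝[<] 1) (𝓝 0) :=
      (hasDerivAt_iff_tendsto_slope.1 hder).mono_left (nhdsWithin_mono _ fun x hx => ne_of_lt hx)
    have hge : ∀ᶠ x in 𝓝[<] (1 : ℝ), κ ≤ slope (fun x : ℝ => v x) 1 x := by
      have h2 : Ioo (1 / 2 : ℝ) 1 ∈ 𝓝[<] (1 : ℝ) := Ioo_mem_nhdsLT (by norm_num)
      filter_upwards [h2] with x hx
      have h3 : ‖(x : ℂ)‖ = x := by
        rw [Complex.norm_real, Real.norm_of_nonneg]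
        linarith [hx.1]
      have h4 := hkey (x : ℂ) ⟨by
        rw [mem_closedBall, dist_zero_right, h3]
        exact hx.2.le, by
        simp only [mem_ball, dist_zero_right, h3, not_lt]
        exact hx.1.le⟩
      rw [h3] at h4
      have h5 : Real.log x ≤ x - 1 := Real.log_le_sub_one_of_pos (by linarith [hx.1])
      have h6 : v ((1 : ℝ) : ℂ) = c := h1 _ (by simp)
      rw [slope_def_field, h6, le_div_iff_of_neg (by linarith [hx.2])]
      have h7 : κ * Real.log x ≤ κ * (x - 1) := mul_le_mul_of_nonneg_left h5 hκ0.le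
      linarith
    have := ge_of_tendsto hslope hge
    linarith

theorem zero_mem_core {s : ℕ∞} (hs : 1 ≤ s) : (0 : Cn (m + 2)) ∈ core s (Om m) := by
  have hpt0 : (pt 0 0 : Cn (m + 2)) = 0 := ext_pt (by simp) (by simp) fun j => by simp
  have h0mem : (0 : Cn (m + 2)) ∈ Om m := by
    rw [← hpt0]
    exact P1_sub (pt_mem_P1 (by simp) (by simp))
  refine ⟨h0mem, fun φ hφs hφ hb hstrict => ?_⟩
  set c := φ (pt 0 3) with hcdef
  set v : ℂ → ℝ := fun t => φ (pt t 0) with hv
  have hvline : v = fun t : ℂ => φ (pt 0 0 + t • pt 1 0) := by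
    funext t
    rw [hv]
    simp only
    rw [← pt_line_t]
  have hmem : ∀ t ∈ ball (0 : ℂ) 2, (pt 0 0 : Cn (m + 2)) + t • pt 1 0 ∈ Om m := fun t ht => by
    rw [← pt_line_t]
    exact P1_sub (pt_mem_P1 (by simpa using ht) (by simp))
  obtain ⟨hc, hg⟩ := psh_line hφ (pt 0 0) (pt 1 0) hmem
  rw [← hvline] at hc hg
  have hxx : ∀ k, v (xx k) = c := fun k => const_on hφ hb (k := k) (by simpa using dd_pos k)
  have hcirc : ∀ t : ℂ, ‖t‖ = 1 → v t = c := by
    intro t ht
    have hct : ContinuousAt v t := hc.continuousAt (isOpen_ball.mem_nhds (by simp [ht]))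
    by_contra hne
    have hev : ∀ᶠ s in 𝓝 t, v s ≠ c := hct.eventually_ne hne
    obtain ⟨ε, hε, hball⟩ := Metric.mem_nhds_iff.1 hev
    obtain ⟨k, hk⟩ := exists_xx ht hε
    exact hball (by rwa [mem_ball, dist_eq_norm]) (hxx k)
  -- differentiability
  have hline : ∀ x : ℝ, (pt (x : ℂ) 0 : Cn (m + 2)) = x • pt 1 0 := by
    intro x
    refine ext_pt ?_ ?_ fun j => ?_
    · simp
    · simp
    · simp
  have hdiff : DifferentiableAt ℝ (fun x : ℝ => v x) 1 := by
    have h1 : DifferentiableAt ℝ φ ((1 : ℝ) • pt 1 0) := by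
      have hmem1 : ((1 : ℝ) • pt 1 0 : Cn (m + 2)) ∈ Om m := by
        rw [← hline]
        exact P1_sub (pt_mem_P1 (by simp) (by simp))
      have h2 : ContDiffAt ℝ s φ ((1 : ℝ) • pt 1 0) := hφs.contDiffAt (isOpen_Om.mem_nhds hmem1)
      refine h2.differentiableAt ?_
      intro h0
      have : s = 0 := by exact_mod_cast h0
      rw [this] at hs
      exact absurd hs (by simp)
    have h3 : (fun x : ℝ => v x) = φ ∘ fun x : ℝ => x • (pt 1 0 : Cn (m + 2)) := by
      funext x
      simp only [hv, hline, Function.comp]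
    rw [h3]
    exact h1.comp (1 : ℝ) (by fun_prop)
  have hd : ∀ D, HasDerivAt (fun x : ℝ => v x) D 1 → D = 0 := by
    intro D hD
    have hslope := hasDerivAt_iff_tendsto_slope.1 hD
    choose k hk1 hk2 using xx_radial
    have hseq : Tendsto (fun l : ℕ => 1 + (1 / 2 : ℝ) ^ (k l + 1)) atTop (𝓝[≠] 1) := by
      refine tendsto_nhdsWithin_iff.2 ⟨?_, Eventually.of_forall fun l => ?_⟩
      · have h1 : Tendsto (fun l : ℕ => k l + 1) atTop atTop :=
          tendsto_atTop_mono (fun l => (hk2 l).trans (Nat.le_succ _)) tendsto_id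
        have h2 := (tendsto_pow_atTop_nhds_zero_of_lt_one (r := (1 / 2 : ℝ)) (by norm_num)
          (by norm_num)).comp h1
        simpa using tendsto_const_nhds (x := (1 : ℝ)).add h2
      · have : (0 : ℝ) < (1 / 2) ^ (k l + 1) := by positivity
        simp only [mem_compl_iff, mem_singleton_iff]
        linarith
    have h3 := hslope.comp hseq
    have h4 : (slope (fun x : ℝ => v x) 1 ∘ fun l : ℕ => 1 + (1 / 2 : ℝ) ^ (k l + 1)) =
        fun _ => (0 : ℝ) := by
      funext l
      simp only [Function.comp]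
      rw [slope_def_field, ← hk1, hxx, hcirc _ (by simp), sub_self, zero_div]
    rw [h4] at h3
    exact tendsto_nhds_unique h3 tendsto_const_nhds |>.symm ▸ rfl
  have hconst := hopf hc hg hcirc hd hdiff
  obtain ⟨U, hU, h0U, ε, hε, hUpsh⟩ := hstrict
  obtain ⟨ρ, hρ, hball⟩ := Metric.isOpen_iff.1 hU 0 h0U
  set r := min (ρ / 2) 1 with hr
  have hr0 : 0 < r := by positivity
  have hr1 : r ≤ 1 := min_le_right _ _
  have hrρ : r < ρ := (min_le_left _ _).trans_lt (by linarith)
  have hnorm : ∀ ζ : ℂ, ‖(ζ • pt (r : ℂ) 0 : Cn (m + 2))‖ = ‖ζ‖ * r := by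
    intro ζ
    have h10 : ‖(pt 1 0 : Cn (m + 2))‖ = 1 := by
      have : (pt 1 0 : Cn (m + 2)) = EuclideanSpace.single 0 1 :=
        ext_pt (by simp) (by simp) fun j => by simp [Fin.succ_ne_zero]
      rw [this, EuclideanSpace.norm_single, norm_one]
    rw [norm_smul, hline, norm_smul, Real.norm_of_nonneg hr0.le, h10, mul_one]
  have h1 := hUpsh.2 0 (pt (r : ℂ) 0) fun ζ hζ => hball (by
    rw [zero_add, mem_ball, dist_zero_right, hnorm]
    nlinarith)
  have h2 : circleAverage (fun ζ : ℂ => φ (0 + ζ • pt (r : ℂ) 0) -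
      ε * ‖(0 + ζ • pt (r : ℂ) 0 : Cn (m + 2))‖ ^ 2) 0 1 = c - ε * r ^ 2 := by
    refine circleAverage_const_on_circle fun ζ hζ => ?_
    have hζ1 : ‖ζ‖ = 1 := by simpa using hζ
    rw [zero_add, hnorm, hζ1, one_mul]
    congr 1
    rw [pt_smul, mul_zero]
    refine hconst _ ?_
    rw [norm_mul, hζ1, one_mul, Complex.norm_real, Real.norm_of_nonneg hr0.le]
    exact hr1
  rw [h2] at h1
  have h3 : φ 0 = c := by
    rw [← hpt0]
    exact hconst 0 (by simp)
  simp only [h3, norm_zero, ne_eq, OfNat.ofNat_ne_zero, not_false_eq_true, zero_pow, mul_zero,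
    sub_zero] at h1
  have : 0 < ε * r ^ 2 := by positivity
  linarith

end Pool.Agent.Seat73.CoreS
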