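import Mathlib

/-!
# Continuous functions with the local sub-mean value property in the plane
-/

set_option autoImplicit false

open Real Set Metric Filter Topology InnerProductSpace

namespace Pool.Agent.Seat73.CoreS

/-- The sub-mean value inequality holds on all small circles around `z`. -/
def LSM (f : ℂ → ℝ) (z : ℂ) : Prop :=
  ∃ r₀ > 0, ∀ r, 0 < r → r < r₀ → f z ≤ circleAverage f z r

/-- A continuous function bounded by `m` on a circle and smaller than `m` at one point of it has an
average smaller than `m`. -/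
theorem avg_lt {f : ℂ → ℝ} {c : ℂ} {r m : ℝ} (hf : ContinuousOn f (sphere c |r|))
    (hle : ∀ z ∈ sphere c |r|, f z ≤ m) {p : ℂ} (hp : p ∈ sphere c |r|) (hlt : f p < m) :
    circleAverage f c r < m := by
  rw [← circleAverage_const m c |r|, circleAverage, circleAverage, smul_eq_mul, smul_eq_mul,
    mul_lt_mul_iff_of_pos_left (inv_pos.2 two_pi_pos)]
  obtain ⟨θ, hθ, rfl⟩ : ∃ θ ∈ Ioc 0 (2 * π), circleMap c r θ = p := by
    have := image_circleMap_Ioc c r
    rw [← this] at hp
    exact hp
  refine intervalIntegral.integral_lt_integral_of_continuousOn_of_le_of_exists_lt two_pi_pos ?_ ?_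
    (fun θ _ => hle _ (circleMap_mem_sphere' c r θ)) ⟨θ, ⟨hθ.1.le, hθ.2⟩, hlt⟩
  · exact hf.comp (continuous_circleMap c r).continuousOn fun θ _ => circleMap_mem_sphere' c r θ
  · exact continuousOn_const

/-- The maximum principle. -/
theorem max_principle {f : ℂ → ℝ} {K : Set ℂ} (hK : IsCompact K) (hf : ContinuousOn f K) {M : ℝ}
    (h : ∀ z ∈ K, f z ≤ M ∨ (K ∈ 𝓝 z ∧ LSM f z)) : ∀ z ∈ K, f z ≤ M := by
  by_contra hcon
  push Not at hcon
  obtain ⟨z₁, hz₁, hM⟩ := hcon
  obtain ⟨z₀, hz₀, hmax⟩ := hK.exists_isMaxOn ⟨z₁, hz₁⟩ hf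
  have hm : M < f z₀ := hM.trans_le (hmax hz₁)
  have hT : IsCompact (K ∩ f ⁻¹' {f z₀}) :=
    hK.of_isClosed_subset (hf.preimage_isClosed_of_isClosed hK.isClosed isClosed_singleton)
      inter_subset_left
  obtain ⟨z₂, hz₂, hre⟩ := hT.exists_isMaxOn ⟨z₀, hz₀, rfl⟩ Complex.continuous_re.continuousOn
  have hz₂m : f z₂ = f z₀ := hz₂.2
  rcases h z₂ hz₂.1 with h1 | ⟨h1, r₀, hr₀, h2⟩
  · rw [hz₂m] at h1
    linarith
  · obtain ⟨ρ, hρ, hball⟩ := Metric.nhds_basis_closedBall.mem_iff.1 h1
    set r := min r₀ ρ / 2 with hr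
    have hr0 : 0 < r := by positivity
    have hr1 : r < r₀ := by
      have := min_le_left r₀ ρ
      linarith
    have hr2 : r ≤ ρ := by
      have := min_le_right r₀ ρ
      linarith
    have hsub : sphere z₂ |r| ⊆ K := by
      rw [abs_of_pos hr0]
      exact sphere_subset_closedBall.trans ((closedBall_subset_closedBall hr2).trans hball)
    have h3 := h2 r hr0 hr1
    have hp : z₂ + (r : ℂ) ∈ sphere z₂ |r| := by
      simp
    have hlt : f (z₂ + r) < f z₀ := by
      refine lt_of_le_of_ne (hmax (hsub hp)) fun h4 => ?_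
      have h5 := hre ⟨hsub hp, h4⟩
      simp only [Complex.add_re, Complex.ofReal_re, mem_ofPred_eq] at h5
      linarith
    have h6 := avg_lt (hf.mono hsub) (fun z hz => hmax (hsub hz)) hp hlt
    linarith

/-- A harmonic function satisfies the mean value property on small circles. -/
theorem harmonic_mean {H : ℂ → ℝ} {z : ℂ} (hH : HarmonicAt H z) :
    ∃ r₀ > 0, ∀ r, 0 < r → r < r₀ → ContinuousOn H (closedBall z r) ∧ circleAverage H z r = H z := by
  obtain ⟨ρ, hρ, hball⟩ := Metric.nhds_basis_closedBall.mem_iff.1 hH.eventually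
  refine ⟨ρ, hρ, fun r hr0 hr => ?_⟩
  have h1 : HarmonicOnNhd H (closedBall z |r|) := by
    rw [abs_of_pos hr0]
    intro x hx
    exact hball (closedBall_subset_closedBall hr.le hx)
  refine ⟨?_, h1.circleAverage_eq⟩
  have := h1.continuousOn
  rwa [abs_of_pos hr0] at this

theorem circInt {f : ℂ → ℝ} {z : ℂ} {r : ℝ} (hr : 0 ≤ r) (hf : ContinuousOn f (closedBall z r)) :
    CircleIntegrable f z r :=
  (hf.mono sphere_subset_closedBall).circleIntegrable hr

/-- A function with a lower support function satisfying the local sub-mean value property. -/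
theorem LSM.of_support {f g : ℂ → ℝ} {z : ℂ} (hg : LSM g z) (hgc : ∀ᶠ t in 𝓝 z, ContinuousAt g t)
    (hf : ∀ᶠ t in 𝓝 z, ContinuousAt f t) (hle : ∀ᶠ t in 𝓝 z, g t ≤ f t) (heq : g z = f z) :
    LSM f z := by
  obtain ⟨r₀, hr₀, h⟩ := hg
  obtain ⟨ρ, hρ, hball⟩ := Metric.nhds_basis_closedBall.mem_iff.1 (hgc.and (hf.and hle))
  refine ⟨min r₀ ρ, lt_min hr₀ hρ, fun r hr0 hr => ?_⟩
  have hsub : closedBall z r ⊆ closedBall z ρ :=
    closedBall_subset_closedBall (hr.le.trans (min_le_right _ _))
  rw [← heq]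
  refine (h r hr0 (hr.trans_le (min_le_left _ _))).trans (circleAverage_mono ?_ ?_ ?_)
  · exact circInt hr0.le fun t ht => (hball (hsub ht)).1.continuousWithinAt
  · exact circInt hr0.le fun t ht => (hball (hsub ht)).2.1.continuousWithinAt
  · rw [abs_of_pos hr0]
    exact fun t ht => (hball (hsub (sphere_subset_closedBall ht))).2.2

theorem LSM.harmonic {H : ℂ → ℝ} {z : ℂ} (hH : HarmonicAt H z) : LSM H z := by
  obtain ⟨r₀, hr₀, h⟩ := harmonic_mean hH
  exact ⟨r₀, hr₀, fun r h0 h1 => (h r h0 h1).2.ge⟩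

theorem harm_cont {H : ℂ → ℝ} {z : ℂ} (hH : HarmonicAt H z) : ∀ᶠ t in 𝓝 z, ContinuousAt H t :=
  hH.eventually.mono fun _ ht => ht.1.continuousAt

/-- A function with a harmonic lower support function. -/
theorem LSM.of_harmonic {f H : ℂ → ℝ} {z : ℂ} (hH : HarmonicAt H z)
    (hf : ∀ᶠ t in 𝓝 z, ContinuousAt f t) (hle : ∀ᶠ t in 𝓝 z, H t ≤ f t) (heq : H z = f z) :
    LSM f z :=
  (LSM.harmonic hH).of_support (harm_cont hH) hf hle heq

/-- Subtracting a harmonic function. -/
theorem LSM.sub_harmonic {f H : ℂ → ℝ} {z : ℂ} (hf : LSM f z)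
    (hfc : ∀ᶠ t in 𝓝 z, ContinuousAt f t) (hH : HarmonicAt H z) : LSM (fun t => f t - H t) z := by
  obtain ⟨r₀, hr₀, h⟩ := hf
  obtain ⟨r₁, hr₁, h1⟩ := harmonic_mean hH
  obtain ⟨ρ, hρ, hball⟩ := Metric.nhds_basis_closedBall.mem_iff.1 hfc
  refine ⟨min r₀ (min r₁ ρ), by positivity, fun r hr0 hr => ?_⟩
  have h2 : r < r₀ := hr.trans_le (min_le_left _ _)
  have h3 : r < r₁ := hr.trans_le ((min_le_right _ _).trans (min_le_left _ _))
  have h4 : r < ρ := hr.trans_le ((min_le_right _ _).trans (min_le_right _ _))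
  rw [circleAverage_fun_sub, (h1 r hr0 h3).2]
  · exact sub_le_sub_right (h r hr0 h2) _
  · exact circInt hr0.le fun t ht =>
      (hball (closedBall_subset_closedBall h4.le ht)).continuousWithinAt
  · exact circInt hr0.le (h1 r hr0 h3).1

/-- Every continuous function on the unit circle is approximated by real parts of polynomials. -/
theorem exists_poly {f : ℂ → ℝ} (hf : ContinuousOn f (sphere 0 1)) {ε : ℝ} (hε : 0 < ε) :
    ∃ P : Polynomial ℂ, ∀ z ∈ sphere (0 : ℂ) 1, |f z - (P.eval z).re| ≤ ε := by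
  let g : C(AddCircle (1 : ℝ), ℂ) :=
    ⟨fun x => ((f (AddCircle.toCircle x : ℂ) : ℝ) : ℂ), by
      refine Complex.continuous_ofReal.comp ?_
      refine hf.comp_continuous (continuous_subtype_val.comp AddCircle.continuous_toCircle) ?_
      intro x
      simpa using Circle.norm_coe _⟩
  have hdense := (span_fourier_closure_eq_top (T := (1 : ℝ)))
  have hg : g ∈ (Submodule.span ℂ (range <| @fourier (1 : ℝ))).topologicalClosure := by
    rw [hdense]; trivial
  have hg' : g ∈ closure ((Submodule.span ℂ (range <| @fourier (1 : ℝ)) : Set _)) := hg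
  obtain ⟨p, hp, hdist⟩ := Metric.mem_closure_iff.1 hg' ε hε
  have key : ∃ P Q : Polynomial ℂ, ∀ x : AddCircle (1 : ℝ),
      p x = P.eval (AddCircle.toCircle x : ℂ) +
        (starRingEnd ℂ) (Q.eval (AddCircle.toCircle x : ℂ)) := by
    clear hdist
    induction hp using Submodule.span_induction with
    | mem p hp =>
      obtain ⟨n, rfl⟩ := hp
      rcases le_total 0 n with hn | hn
      · obtain ⟨k, rfl⟩ := Int.eq_ofNat_of_zero_le hn
        refine ⟨Polynomial.X ^ k, 0, fun x => ?_⟩
        rw [fourier_apply, AddCircle.toCircle_zsmul]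
        simp
      · obtain ⟨k, hk⟩ := Int.eq_ofNat_of_zero_le (Int.neg_nonneg_of_nonpos hn)
        have hn' : n = -(k : ℤ) := by omega
        subst hn'
        refine ⟨0, Polynomial.X ^ k, fun x => ?_⟩
        rw [fourier_apply, AddCircle.toCircle_zsmul]
        simp only [zpow_neg, zpow_natCast, Circle.coe_inv, Circle.coe_pow, Polynomial.eval_zero,
          Polynomial.eval_pow, Polynomial.eval_X, zero_add, map_pow]
        rw [← inv_pow]
        congr 1
        rw [← Circle.coe_inv, Circle.coe_inv_eq_conj]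
    | zero => exact ⟨0, 0, fun x => by simp⟩
    | add p q _ _ hp hq =>
      obtain ⟨P, Q, h1⟩ := hp
      obtain ⟨P', Q', h2⟩ := hq
      refine ⟨P + P', Q + Q', fun x => ?_⟩
      rw [ContinuousMap.add_apply, h1, h2]
      simp only [Polynomial.eval_add, map_add]
      ring
    | smul c p _ hp =>
      obtain ⟨P, Q, h1⟩ := hp
      refine ⟨Polynomial.C c * P, Polynomial.C ((starRingEnd ℂ) c) * Q, fun x => ?_⟩
      rw [ContinuousMap.smul_apply, h1]
      simp only [smul_eq_mul, Polynomial.eval_mul, Polynomial.eval_C, map_mul, Complex.conj_conj]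
      ring
  obtain ⟨P, Q, hPQ⟩ := key
  refine ⟨P + Q, fun z hz => ?_⟩
  obtain ⟨x, hx⟩ := (AddCircle.homeomorphCircle (T := (1 : ℝ)) one_ne_zero).surjective
    (⟨z, by simpa [Submonoid.unitSphere] using hz⟩ : Circle)
  have hx' : (AddCircle.toCircle x : ℂ) = z := by
    rw [AddCircle.homeomorphCircle_apply] at hx
    rw [hx]
  have h1 : ‖g x - p x‖ ≤ ε := by
    rw [← dist_eq_norm]
    exact (ContinuousMap.dist_apply_le_dist x).trans hdist.le
  have h2 : (g x - p x).re = f z - ((P + Q).eval z).re := by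
    rw [hPQ, hx']
    show ((f (AddCircle.toCircle x : ℂ) : ℝ) : ℂ).re - _ = _
    simp [hx']
  rw [← h2]
  exact (Complex.abs_re_le_norm _).trans h1

theorem harmonic_poly (P : Polynomial ℂ) (z : ℂ) : HarmonicAt (fun t => (P.eval t).re) z :=
  (P.differentiable.analyticAt z).harmonicAt_re

/-- From local to global: a continuous function on the closed disc with the local sub-mean value
property inside satisfies the sub-mean value inequality on the unit circle. -/
theorem local_to_global {f : ℂ → ℝ} (hf : ContinuousOn f (closedBall 0 1))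
    (h : ∀ z ∈ ball (0 : ℂ) 1, LSM f z) : f 0 ≤ circleAverage f 0 1 := by
  refine le_of_forall_pos_le_add fun ε hε => ?_
  obtain ⟨P, hP⟩ := exists_poly (hf.mono sphere_subset_closedBall) (half_pos hε)
  have hHc : Continuous fun t : ℂ => (P.eval t).re :=
    Complex.continuous_re.comp P.continuous
  have h1 : ∀ z ∈ closedBall (0 : ℂ) 1, f z - (P.eval z).re ≤ ε / 2 := by
    refine max_principle (isCompact_closedBall _ _) (hf.sub hHc.continuousOn) fun z hz => ?_
    by_cases hz1 : ‖z‖ = 1
    · left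
      exact (le_abs_self _).trans (hP z (by simpa using hz1))
    · right
      have hzb : z ∈ ball (0 : ℂ) 1 := by
        rw [mem_closedBall, dist_zero_right] at hz
        rw [mem_ball, dist_zero_right]
        exact lt_of_le_of_ne hz hz1
      have hnb : closedBall (0 : ℂ) 1 ∈ 𝓝 z :=
        mem_of_superset (isOpen_ball.mem_nhds hzb) ball_subset_closedBall
      refine ⟨hnb, (h z hzb).sub_harmonic ?_ (harmonic_poly P z)⟩
      filter_upwards [isOpen_ball.mem_nhds hzb] with t ht
      exact hf.continuousAt (mem_of_superset (isOpen_ball.mem_nhds ht) ball_subset_closedBall)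
  have h2 : circleAverage (fun t => (P.eval t).re) 0 1 = (P.eval 0).re := by
    have : HarmonicOnNhd (fun t => (P.eval t).re) (closedBall (0 : ℂ) |1|) :=
      fun z _ => harmonic_poly P z
    exact this.circleAverage_eq
  have h3 : circleAverage (fun t => (P.eval t).re) 0 1 ≤ circleAverage (fun t => f t + ε / 2) 0 1 := by
    refine circleAverage_mono (circInt zero_le_one hHc.continuousOn)
      (circInt zero_le_one (hf.add continuousOn_const)) fun t ht => ?_
    have := (abs_le.1 (hP t (by simpa using ht))).1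
    linarith
  rw [circleAverage_fun_add (circInt zero_le_one hf) (circInt zero_le_one continuousOn_const),
    circleAverage_const, h2] at h3
  have h4 := h1 0 (mem_closedBall_self zero_le_one)
  linarith

/-- Global sub-mean value property on all discs (parametrized by the unit disc). -/
def GSM (D : Set ℂ) (f : ℂ → ℝ) : Prop :=
  ∀ z v : ℂ, (∀ ζ : ℂ, ‖ζ‖ ≤ 1 → z + ζ * v ∈ D) → f z ≤ circleAverage (fun ζ => f (z + ζ * v)) 0 1

/-- averages along the disc `z + ζ v` -/
theorem avg_affine (f : ℂ → ℝ) (z v ζ₀ : ℂ) (r : ℝ) :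
    circleAverage (fun ζ => f (z + ζ * v)) ζ₀ r =
      circleAverage (fun ζ => f ((z + ζ₀ * v) + ζ * (r * v))) 0 1 := by
  rw [circleAverage_eq_circleAverage_zero_one]
  congr 1
  funext ζ
  ring_nf

/-- The global property along affine discs gives the local one. -/
theorem GSM.lsm {D : Set ℂ} {f : ℂ → ℝ} (h : GSM D f) {z v ζ₀ : ℂ} (hD : D ∈ 𝓝 (z + ζ₀ * v)) :
    LSM (fun ζ => f (z + ζ * v)) ζ₀ := by
  obtain ⟨ρ, hρ, hball⟩ := Metric.nhds_basis_closedBall.mem_iff.1 hD
  refine ⟨ρ / (‖v‖ + 1), by positivity, fun r hr0 hr => ?_⟩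
  rw [avg_affine]
  refine h _ _ fun ζ hζ => hball ?_
  rw [mem_closedBall, dist_eq_norm, add_sub_cancel_left, norm_mul, norm_mul, Complex.norm_real,
    Real.norm_of_nonneg hr0.le]
  have h1 : r * (‖v‖ + 1) < ρ := (lt_div_iff₀ (by positivity)).1 hr
  have h2 : ‖ζ‖ * (r * ‖v‖) ≤ 1 * (r * ‖v‖) :=
    mul_le_mul_of_nonneg_right hζ (by positivity)
  nlinarith [norm_nonneg v]

/-- Liouville's theorem. -/
theorem liouville {f : ℂ → ℝ} (hf : Continuous f) (h : GSM univ f) {B : ℝ} (hB : ∀ z, f z ≤ B)
    (z w : ℂ) : f z = f w := by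
  obtain ⟨z₀, hz₀, hmax⟩ := (isCompact_closedBall (0 : ℂ) 1).exists_isMaxOn
    ⟨0, mem_closedBall_self zero_le_one⟩ hf.continuousOn
  have hl : ∀ z, LSM f z := fun z => by
    have := h.lsm (z := 0) (v := 1) (ζ₀ := z) univ_mem
    simpa using this
  have hle : ∀ z, f z ≤ f z₀ := by
    intro z
    by_cases hz : ‖z‖ ≤ 1
    · exact hmax (by simpa using hz)
    push Not at hz
    have hlog : 0 < Real.log ‖z‖ := Real.log_pos hz
    have hkey : ∀ ε > 0, f z - ε * Real.log ‖z‖ ≤ f z₀ := by
      intro ε hε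
      obtain ⟨R, hR1, hR2⟩ : ∃ R : ℝ, ‖z‖ < R ∧ B - ε * Real.log R ≤ f z₀ := by
        have h1 : Tendsto (fun R => B - ε * Real.log R) atTop atBot := by
          have := (Real.tendsto_log_atTop.const_mul_atTop hε)
          simp only [sub_eq_add_neg]
          exact tendsto_const_nhds.add_atBot (tendsto_neg_atTop_atBot.comp this)
        exact ((eventually_gt_atTop ‖z‖).and (h1.eventually_le_atBot (f z₀))).exists
      have hsphere : IsCompact (closedBall (0 : ℂ) R \ ball 0 1) :=
        (isCompact_closedBall 0 R).diff isOpen_ball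
      have hmem : ∀ t ∈ closedBall (0 : ℂ) R \ ball 0 1, 1 ≤ ‖t‖ ∧ ‖t‖ ≤ R := by
        intro t ht
        constructor
        · simpa using ht.2
        · simpa using ht.1
      have hc : ContinuousOn (fun t : ℂ => f t - ε * Real.log ‖t‖) (closedBall (0 : ℂ) R \ ball 0 1) := by
        refine hf.continuousOn.sub (continuousOn_const.mul ?_)
        refine ContinuousOn.log continuous_norm.continuousOn fun t ht => ?_
        exact (zero_lt_one.trans_le (hmem t ht).1).ne'
      refine max_principle hsphere hc (fun t ht => ?_) z ⟨by simpa using hR1.le, by simpa using hz.le⟩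
      obtain ⟨h1, h2⟩ := hmem t ht
      rcases eq_or_lt_of_le h1 with h1 | h1
      · left
        rw [← h1, Real.log_one, mul_zero, sub_zero]
        exact hmax (by simp [← h1])
      rcases eq_or_lt_of_le h2 with h2 | h2
      · left
        rw [h2]
        linarith [hB t]
      right
      constructor
      · have ho : IsOpen (ball (0 : ℂ) R \ closedBall 0 1) := isOpen_ball.sdiff isClosed_closedBall
        refine mem_of_superset (ho.mem_nhds ⟨by simpa using h2, by simpa using h1⟩) ?_
        exact sdiff_subset_sdiff ball_subset_closedBall ball_subset_closedBall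
      · refine (hl t).sub_harmonic (Eventually.of_forall fun s => hf.continuousAt) ?_
        have h3 : HarmonicAt (fun s : ℂ => Real.log ‖s‖) t :=
          analyticAt_id.harmonicAt_log_norm (by
            intro h0
            have : t = 0 := h0
            rw [this, norm_zero] at h1
            linarith)
        exact h3.const_smul (c := ε)
    refine le_of_forall_pos_le_add fun δ hδ => ?_
    have := hkey (δ / Real.log ‖z‖) (by positivity)
    rw [div_mul_cancel₀ _ hlog.ne'] at this
    linarith
  have heq : ∀ z, f z = f z₀ := by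
    intro z
    refine le_antisymm (hle z) ?_
    by_contra hlt
    push Not at hlt
    have h1 := h z₀ (z - z₀) fun _ _ => mem_univ _
    have h2 : circleAverage (fun ζ => f (z₀ + ζ * (z - z₀))) 0 1 < f z₀ := by
      refine avg_lt (p := 1) ?_ (fun ζ _ => hle _) (by simp) (by simpa using hlt)
      exact (hf.comp (by fun_prop)).continuousOn
    linarith
  rw [heq z, heq w]

end Pool.Agent.Seat73.CoreS
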